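import Mathlib
import Pool.Agent.R488.Tw.Eval

set_option autoImplicit false

/-!
Statements for MP_5b0587_nt (`∑ C(-1/4,k)^2 4^(-k)` modulo `p^2`, `p = 1` modulo `3`).
-/

namespace Pool.Agent.R488.Th

open Finset Pool.Agent.R439.PL Pool.Agent.R488.Cub

def FA (n k : ℕ) : ℚ := ∏ i ∈ range k,
  (((i : ℚ) - n) * (3 * n + 1 + i) / ((2 * n + 3 / 2 + i) * (1 + i)) * (1 / 4))

def FB (r k : ℕ) : ℚ := ∏ i ∈ range k,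
  ((3 * (r : ℚ) - i) * (r + 1 / 3 + i) / ((2 * r - 5 / 6 - i) * (1 + i)) * (1 / 4))

def FC (r k : ℕ) : ℚ := ∏ i ∈ range k,
  ((3 * (r : ℚ) + 2 - i) * (r + 1 + i) / ((2 * r + 1 / 2 - i) * (1 + i)) * (1 / 4))

/-- TH-A -/
def StmtA : Prop := ∀ n : ℕ, ∑ k ∈ range (n + 1), FA n k =
  (16 / 27) ^ n * ∏ i ∈ range (2 * n), ((3 / 2 + i) / (4 / 3 + i) : ℚ)

/-- TH-B -/
def StmtB : Prop := ∀ r : ℕ, ∑ k ∈ range (3 * r + 1), FB r k =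
  (27 / 16) ^ r * ∏ i ∈ range (2 * r), ((1 / 3 + i) / (1 / 6 + i) : ℚ)

/-- TH-C -/
def StmtC : Prop := ∀ r : ℕ, ∑ k ∈ range (3 * r + 3), FC r k =
  3 / 2 * (27 / 16) ^ r * ∏ i ∈ range (2 * r), ((5 / 3 + i) / (3 / 2 + i) : ℚ)

/-- TH-V -/
def StmtV : Prop := ∀ (p j : ℕ) [Fact p.Prime], p = 6 * j + 1 → ∀ a b C4 : ℚ,
  C4 = ((4 * j).choose (2 * j) : ℚ) → a = 64 ^ j - 1 → b = (-27) ^ j - 1 →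
  EQ p 2 (∏ i ∈ range (3 * j - 1), ((5 / 3 + i) / (3 / 2 + i) : ℚ))
    (3 / 4 * ((-4) ^ j * (C4 * (1 + (-(4 / 3) * a + -(3 / 2) * b)))))

/-- TH-W: `∏_{i<9j+1}` against `∏_{i<3j}` -/
def StmtW : Prop := ∀ (p j : ℕ) [Fact p.Prime], p = 6 * j + 1 → ∀ a b : ℚ,
  a = 64 ^ j - 1 → b = (-27) ^ j - 1 →
  EQ p 2 (∏ i ∈ range (6 * j + 1), ((3 / 2 + (3 * j + i)) / (4 / 3 + (3 * j + i)) : ℚ))
    (9 / 8 * (1 + (2 * a + 3 * b)))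

/-- TH-S -/
def StmtS : Prop := ∀ (p M : ℕ), p.Prime → p = 12 * M + 1 → ∀ A B : ℤ,
  (p : ℤ) = A ^ 2 + 3 * B ^ 2 → A % 3 = 2 →
  (A % 4 = 1 → (p : ℤ) ∣ 27 ^ M + 1) ∧ (A % 4 = 3 → (p : ℤ) ∣ 27 ^ M - 1)

end Pool.Agent.R488.Th
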