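import Mathlib
import Pool.Agent.R488.Th.Defs

set_option autoImplicit false

/-!
TH-A: closed form of a terminating `2F1(1/4)`; the certificate proof is a piece of project LX of helper439.
-/

namespace Pool.Agent.R488.Th.AA

open Finset

def hh (n k : ℕ) : ℚ := ∏ i ∈ range k, (((i:ℚ) - n) * (3*(n:ℚ)+1+i) / ((2*(n:ℚ) + 3/2 + i) * ((i:ℚ)+1) * 4))
def Cl (n : ℕ) : ℚ := ∑ k ∈ range (n+1), hh n k
def fl (n : ℕ) : ℚ := ∏ i ∈ range n, (2*(4*(i:ℚ)+3)*(4*i+5)/(3*(6*i+7)*(3*i+2)))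

namespace STR

lemma hh_succ (l k : ℕ) : hh l (k+1) = hh l k *
    (((k:ℚ) - l) * (3*(l:ℚ)+1+k) / ((2*(l:ℚ) + 3/2 + k) * ((k:ℚ)+1) * 4)) := by
  unfold hh
  rw [prod_range_succ]

lemma hh_rat (l k : ℕ) :
    hh (l+1) k * (3*(3*(l:ℚ)+2)*(3*l+1)*(l+1-k)*(4*l+3+2*k)*(4*l+5+2*k)) =
    hh l k * ((4*(l:ℚ)+3)*(4*l+5)*(3*l+1+k)*(3*l+2+k)*(3*l+3+k)) := by
  induction k with
  | zero => simp [hh]; ring
  | succ k ih =>
    rw [hh_succ, hh_succ]
    push_cast
    generalize hh (l+1) k = H' at *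
    generalize hh l k = H at *
    have hx : (0:ℚ) ≤ l := by positivity
    generalize (l:ℚ) = x at *
    have hk : (0:ℚ) ≤ k := by positivity
    generalize (k:ℚ) = y at *
    have n1 : y + 1 ≠ 0 := by linarith
    have n2 : 2*x + 3/2 + y ≠ 0 := by linarith
    have n3 : 2*(x+1) + 3/2 + y ≠ 0 := by linarith
    have n3' : 4*x + 7 + 2*y ≠ 0 := by linarith
    have e1 : H' * ((y - (x+1)) * (3*(x+1)+1+y) / ((2*(x+1) + 3/2 + y) * (y+1) * 4)) *
        (3*(3*x+2)*(3*x+1)*(x+1-(y+1))*(4*x+3+2*(y+1))*(4*x+5+2*(y+1))) =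
        (H' * (3*(3*x+2)*(3*x+1)*(x+1-y)*(4*x+3+2*y)*(4*x+5+2*y))) *
          ((y - x) * (3*x+4+y) / ((2*x + 3/2 + y) * (y+1) * 4)) := by
      field_simp
      ring
    rw [e1, ih]
    field_simp
    ring

/-- the numerator of the certificate -/
def PP (x y : ℚ) : ℚ := (264*x^3+630*x^2+459*x+105) + (252*x^2+360*x+117)*y + (60*x+30)*y^2

/-- the ratio `fl (l+1) / fl l` -/
def rho (x : ℚ) : ℚ := 2*(4*x+3)*(4*x+5)/(3*(6*x+7)*(3*x+2))

/-- the certificate -/
def RR (x y : ℚ) : ℚ := - (y * PP x y) / (3*(3*x+1)*(x+1-y)*(4*x+3+2*y)*(4*x+5+2*y))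

lemma tele (l k : ℕ) (hk : k ≤ l) :
    ∑ i ∈ range k, (hh (l+1) i - rho l * hh l i) = rho l * RR l k * hh l k := by
  induction k with
  | zero => simp [RR]
  | succ k ih =>
    rw [sum_range_succ, ih (by omega), hh_succ]
    have hr := hh_rat l k
    have hkl : (k:ℚ) + 1 ≤ l := by exact_mod_cast hk
    have hk0 : (0:ℚ) ≤ k := by positivity
    push_cast
    generalize hh (l+1) k = H' at *
    generalize hh l k = H at *
    generalize (l:ℚ) = x at *
    generalize (k:ℚ) = y at *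
    have n0 : x + 1 - y ≠ 0 := by linarith
    have n1 : y + 1 ≠ 0 := by linarith
    have n2 : 2*x + 3/2 + y ≠ 0 := by linarith
    have n4 : 4*x + 3 + 2*y ≠ 0 := by linarith
    have n5 : 4*x + 5 + 2*y ≠ 0 := by linarith
    have n6 : 3*x + 1 ≠ 0 := by linarith
    have n7 : 3*x + 2 ≠ 0 := by linarith
    have n8 : 6*x + 7 ≠ 0 := by linarith
    have n9 : x - y ≠ 0 := by linarith
    have n10 : x + 1 - (y + 1) ≠ 0 := by linarith
    have n11 : 4*x + 3 + 2*(y+1) ≠ 0 := by linarith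
    have n12 : 4*x + 5 + 2*(y+1) ≠ 0 := by linarith
    have hH : H' = H * ((4*x+3)*(4*x+5)*(3*x+1+y)*(3*x+2+y)*(3*x+3+y)) /
        (3*(3*x+2)*(3*x+1)*(x+1-y)*(4*x+3+2*y)*(4*x+5+2*y)) := by
      rw [eq_div_iff (by positivity)]
      exact hr
    rw [hH]
    unfold rho RR PP
    have e2 : 2*x + 3/2 + y = (4*x+3+2*y)/2 := by ring
    rw [e2]
    have e3 : x + 1 - (y+1) = x - y := by ring
    rw [e3]
    have e4 : 4*x + 3 + 2*(y+1) = 4*x+5+2*y := by ring
    rw [e4]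
    have e5 : 4*x + 5 + 2*(y+1) = 4*x+7+2*y := by ring
    rw [e5] at n12 ⊢
    clear ih hr hH e2 e3 e4 e5 n10 n11 n2
    generalize ha : x + 1 - y = a at *
    generalize hb : 4*x + 3 + 2*y = b at *
    generalize hc : 4*x + 5 + 2*y = c at *
    generalize hd : 3*x + 1 = d at *
    generalize he : 3*x + 2 = e at *
    generalize hf : 6*x + 7 = f at *
    generalize hg : x - y = g at *
    generalize hh' : 4*x + 7 + 2*y = h at *
    generalize hi : y + 1 = j at *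
    have hyx : y - x = -g := by rw [← hg]; ring
    rw [hyx]
    field_simp
    rw [← ha, ← hb, ← hc, ← hd, ← he, ← hf, ← hh', ← hi]
    ring

lemma rec (l : ℕ) : Cl (l+1) = rho l * Cl l := by
  unfold Cl
  have h1 := tele l l le_rfl
  rw [sum_sub_distrib, ← mul_sum] at h1
  rw [sum_range_succ (fun k => hh (l+1) k) (l+1), sum_range_succ (fun k => hh (l+1) k) l,
    sum_range_succ (fun k => hh l k) l, hh_succ (l+1) l]
  have hr := hh_rat l l
  have e : ∑ k ∈ range l, hh (l+1) k = rho l * ∑ k ∈ range l, hh l k + rho l * RR l l * hh l l := by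
    linarith
  rw [e]
  have hx0 : (0:ℚ) ≤ l := by positivity
  push_cast
  generalize hh (l+1) l = H' at *
  generalize hh l l = H at *
  generalize (l:ℚ) = x at *
  have hH : H' = H * ((4*x+3)*(4*x+5)*(3*x+1+x)*(3*x+2+x)*(3*x+3+x)) /
      (3*(3*x+2)*(3*x+1)*(x+1-x)*(4*x+3+2*x)*(4*x+5+2*x)) := by
    have : x + 1 - x ≠ 0 := by linarith
    rw [eq_div_iff (by positivity)]
    exact hr
  have key : rho x * RR x x * H + H' + H' * ((x - (x+1)) * (3*(x+1)+1+x) /
      ((2*(x+1) + 3/2 + x) * (x+1) * 4)) = rho x * H := by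
    rw [hH]
    unfold rho RR PP
    have e1 : x + 1 - x = 1 := by ring
    have e2 : 3*x+1+x = 4*x+1 := by ring
    have e3 : 3*x+2+x = 2*(2*x+1) := by ring
    have e4 : 3*x+3+x = 4*x+3 := by ring
    have e5 : 4*x+3+2*x = 3*(2*x+1) := by ring
    have e6 : 4*x+5+2*x = 6*x+5 := by ring
    have e7 : 2*(x+1) + 3/2 + x = (6*x+7)/2 := by ring
    have e8 : x - (x+1) = -1 := by ring
    have e9 : 3*(x+1)+1+x = 4*(x+1) := by ring
    rw [e1, e2, e3, e4, e5, e6, e7, e8, e9]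
    have n1 : x + 1 ≠ 0 := by positivity
    have n2 : 2*x + 1 ≠ 0 := by positivity
    have n3 : 6*x + 7 ≠ 0 := by positivity
    have n4 : 6*x + 5 ≠ 0 := by positivity
    have n5 : 3*x + 1 ≠ 0 := by positivity
    have n6 : 3*x + 2 ≠ 0 := by positivity
    field_simp
    ring
  linear_combination key

end STR

open STR in
theorem t_STR : ∀ n : ℕ, Cl n = fl n := by
  intro l
  induction l with
  | zero => simp [Cl, hh, fl]
  | succ l ih =>
    rw [STR.rec, ih]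
    unfold fl
    rw [prod_range_succ, mul_comm]
    rfl



end Pool.Agent.R488.Th.AA

namespace Pool.Agent.R488.Th

open Finset

theorem thA : StmtA := by
  intro n
  have h1 : ∑ k ∈ range (n + 1), FA n k = AA.Cl n := by
    rw [AA.Cl]
    refine sum_congr rfl fun k _ => ?_
    rw [FA, AA.hh]
    refine prod_congr rfl fun i _ => ?_
    rw [div_mul_div_comm, mul_one]
    congr 1
    ring
  have h2 : ∀ n : ℕ, AA.fl n = (16 / 27) ^ n * ∏ i ∈ range (2 * n), ((3 / 2 + i) / (4 / 3 + i) : ℚ) := by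
    intro n
    induction n with
    | zero => simp [AA.fl]
    | succ n ih =>
      have e : AA.fl (n + 1) = AA.fl n * (2*(4*(n:ℚ)+3)*(4*n+5)/(3*(6*n+7)*(3*n+2))) := by
        rw [AA.fl, prod_range_succ]; rfl
      rw [e, ih, show 2 * (n + 1) = 2 * n + 1 + 1 by ring, prod_range_succ, prod_range_succ, pow_succ]
      have h2 : ((4 : ℚ) / 3 + ((2 * n : ℕ) : ℚ)) ≠ 0 := by positivity
      have h3 : ((4 : ℚ) / 3 + ((2 * n + 1 : ℕ) : ℚ)) ≠ 0 := by positivity
      have h4 : (6*(n:ℚ)+7) ≠ 0 := by positivity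
      have h5 : (3*(n:ℚ)+2) ≠ 0 := by positivity
      generalize (∏ i ∈ range (2 * n), ((3 / 2 + (i : ℚ)) / (4 / 3 + i))) = P
      generalize ((16 : ℚ) / 27) ^ n = Q
      push_cast at h2 h3 ⊢
      field_simp
      ring
  rw [h1, AA.t_STR, h2]

end Pool.Agent.R488.Th
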