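import Pool.Agent.R488.Th.Defs

set_option autoImplicit false

/-!
TH-B: an evaluation of a terminating `2F1(1/4)` by a certificate.
-/

namespace Pool.Agent.R488.Th

open Finset

namespace NB

theorem FB_zero (M : ℕ) : FB M 0 = 1 := by simp [FB]

theorem FB_succ (M k : ℕ) : FB M (k + 1) = FB M k *
    ((3 * (M : ℚ) - k) * (M + 1 / 3 + k) / ((2 * M - 5 / 6 - k) * (1 + k)) * (1 / 4)) := by
  unfold FB
  rw [prod_range_succ]

/-- `12 a - 5 - 6 k` never vanishes -/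
theorem ne6 (a k : ℤ) : (12 * (a : ℚ) - 5 - 6 * k) ≠ 0 := by
  intro h
  have h' : (12 * a - 5 - 6 * k : ℤ) = 0 := by exact_mod_cast h
  omega

theorem ne6' (a k : ℕ) : (12 * (a : ℚ) - 5 - 6 * k) ≠ 0 := by
  have := ne6 a k
  push_cast at this
  exact this

theorem R1 (M k : ℕ) : FB M (k + 1) = FB M k *
    ((3 * (M : ℚ) - k) * (3 * M + 1 + 3 * k) / (2 * (12 * M - 5 - 6 * k) * (1 + k))) := by
  rw [FB_succ]
  congr 1
  have h2 := ne6' M k
  have h1 : (2 * (M : ℚ) - 5 / 6 - k) ≠ 0 := by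
    intro h
    apply h2
    linear_combination 6 * h
  have h3 : (1 + (k : ℚ)) ≠ 0 := by positivity
  rw [div_mul_div_comm, div_eq_div_iff (by
    exact mul_ne_zero (mul_ne_zero h1 h3) (by norm_num)) (by
    exact mul_ne_zero (mul_ne_zero (by norm_num) h2) h3)]
  ring

/-- the quotient of `FB (M+1) (k+3)` and `FB M k` -/
def cq (n k : ℚ) : ℚ :=
  ((3 * n + 3) * (3 * n + 2) * (3 * n + 1 + 3 * k) * (3 * n + 4 + 3 * k) * (3 * n + 7 + 3 * k) *
    (3 * n + 10 + 3 * k)) /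
    (8 * (12 * n + 7) * (12 * n + 1) * (12 * n - 5 - 6 * k) * (1 + k) * (2 + k) * (3 + k))

theorem R2 (n k : ℕ) : FB (n + 1) (k + 3) = cq n k * FB n k := by
  induction k with
  | zero =>
    rw [show 0 + 3 = 0 + 1 + 1 + 1 by rfl, R1, R1, R1, FB_zero, FB_zero]
    unfold cq
    have h1 : (12 * (n : ℚ) + 7) ≠ 0 := by positivity
    have h2 : (12 * (n : ℚ) + 1) ≠ 0 := by positivity
    have h3 : (12 * (n : ℚ) - 5) ≠ 0 := by
      have := ne6' n 0
      push_cast at this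
      intro h
      apply this
      linear_combination h
    have e1 : (12 * (((n + 1 : ℕ) : ℚ)) - 5 - 6 * ((0 : ℕ) : ℚ)) = 12 * n + 7 := by push_cast; ring
    have e2 : (12 * (((n + 1 : ℕ) : ℚ)) - 5 - 6 * ((0 + 1 : ℕ) : ℚ)) = 12 * n + 1 := by push_cast; ring
    have e3 : (12 * (((n + 1 : ℕ) : ℚ)) - 5 - 6 * ((0 + 1 + 1 : ℕ) : ℚ)) = 12 * n - 5 := by push_cast; ring
    have e4 : (12 * (n : ℚ) - 5 - 6 * ((0 : ℕ) : ℚ)) = 12 * n - 5 := by push_cast; ring
    rw [e1, e2, e3, e4]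
    push_cast
    field_simp
    ring
  | succ k ih =>
    rw [show k + 1 + 3 = (k + 3) + 1 by ring, R1 (n + 1) (k + 3), ih, R1 n k]
    unfold cq
    have h1 : (12 * (n : ℚ) + 7) ≠ 0 := by positivity
    have h2 : (12 * (n : ℚ) + 1) ≠ 0 := by positivity
    have h3 : (12 * (n : ℚ) - 5 - 6 * k) ≠ 0 := ne6' n k
    have h4 : (12 * (n : ℚ) - 11 - 6 * k) ≠ 0 := by
      have := ne6' n (k + 1)
      push_cast at this
      intro h
      apply this
      linear_combination h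
    have e1 : (12 * (((n + 1 : ℕ) : ℚ)) - 5 - 6 * ((k + 3 : ℕ) : ℚ)) = 12 * n - 11 - 6 * k := by
      push_cast; ring
    have e2 : (12 * (n : ℚ) - 5 - 6 * ((k + 1 : ℕ) : ℚ)) = 12 * n - 11 - 6 * k := by push_cast; ring
    rw [e1, e2]
    push_cast
    have h5 : (1 + (k : ℚ)) ≠ 0 := by positivity
    have h6 : (2 + (k : ℚ)) ≠ 0 := by positivity
    have h7 : (3 + (k : ℚ)) ≠ 0 := by positivity
    have h8 : (1 + ((k : ℚ) + 3)) ≠ 0 := by positivity
    have h9 : (1 + ((k : ℚ) + 1)) ≠ 0 := by positivity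
    have h10 : (2 + ((k : ℚ) + 1)) ≠ 0 := by positivity
    have h11 : (3 + ((k : ℚ) + 1)) ≠ 0 := by positivity
    field_simp
    ring

/-- the polynomial of the certificate -/
def pp (n k : ℚ) : ℚ := (136 + 819 * n + 270 * n ^ 2 + 27 * n ^ 3) +
  (261 + 1323 * n + 162 * n ^ 2) * k + (99 + 459 * n) * k ^ 2

/-- the certificate -/
def ct (n k : ℚ) : ℚ := (3 * n + 2) * pp n k / (2 * (k + 1) * (k + 2))

theorem stepQ (n k F d : ℚ) (h1 : 12 * n + 7 ≠ 0) (h2 : 12 * n + 1 ≠ 0)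
    (hd : d = 12 * n - 5 - 6 * k) (h3 : d ≠ 0) (h8 : k + 1 ≠ 0) (h9 : k + 2 ≠ 0)
    (h10 : k + 3 ≠ 0) :
    2 * (12 * n + 1) * (12 * n + 7) * (((3 * n + 3) * (3 * n + 2) * (3 * n + 1 + 3 * k) *
      (3 * n + 4 + 3 * k) * (3 * n + 7 + 3 * k) * (3 * n + 10 + 3 * k)) /
    (8 * (12 * n + 7) * (12 * n + 1) * d * (k + 1) * (k + 2) * (k + 3)) * F) -
    27 * (3 * n + 2) * (6 * n + 1) * F =
    (3 * n + 2) * pp n (k + 1) / (2 * (k + 2) * (k + 3)) *
      (F * ((3 * n - k) * (3 * n + 1 + 3 * k) / (2 * d * (k + 1)))) -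
      (3 * n + 2) * pp n k / (2 * (k + 1) * (k + 2)) * F := by
  have e1 : 2 * (12 * n + 1) * (12 * n + 7) * (((3 * n + 3) * (3 * n + 2) * (3 * n + 1 + 3 * k) *
      (3 * n + 4 + 3 * k) * (3 * n + 7 + 3 * k) * (3 * n + 10 + 3 * k)) /
    (8 * (12 * n + 7) * (12 * n + 1) * d * (k + 1) * (k + 2) * (k + 3)) * F) =
      ((3 * n + 3) * (3 * n + 2) * (3 * n + 1 + 3 * k) *
      (3 * n + 4 + 3 * k) * (3 * n + 7 + 3 * k) * (3 * n + 10 + 3 * k)) * F /
      (4 * d * (k + 1) * (k + 2) * (k + 3)) := by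
    field_simp
    ring
  have e2 : (3 * n + 2) * pp n (k + 1) / (2 * (k + 2) * (k + 3)) *
      (F * ((3 * n - k) * (3 * n + 1 + 3 * k) / (2 * d * (k + 1)))) =
      (3 * n + 2) * pp n (k + 1) * (F * ((3 * n - k) * (3 * n + 1 + 3 * k))) /
      (4 * d * (k + 1) * (k + 2) * (k + 3)) := by
    field_simp
    ring
  have e3 : (3 * n + 2) * pp n k / (2 * (k + 1) * (k + 2)) * F =
      (3 * n + 2) * pp n k * F * (2 * d * (k + 3)) / (4 * d * (k + 1) * (k + 2) * (k + 3)) := by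
    field_simp
    ring
  have e4 : 27 * (3 * n + 2) * (6 * n + 1) * F =
      27 * (3 * n + 2) * (6 * n + 1) * F * (4 * d * (k + 1) * (k + 2) * (k + 3)) /
        (4 * d * (k + 1) * (k + 2) * (k + 3)) := by
    field_simp
  rw [e1, e2, e3, e4, ← sub_div, ← sub_div]
  congr 1
  rw [hd]
  unfold pp
  ring

theorem step (n k : ℕ) : 2 * (12 * (n : ℚ) + 1) * (12 * n + 7) * FB (n + 1) (k + 3) -
    27 * (3 * n + 2) * (6 * n + 1) * FB n k = ct n (k + 1) * FB n (k + 1) - ct n k * FB n k := by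
  rw [R2, R1 n k]
  have h := stepQ n k (FB n k) (12 * n - 5 - 6 * k) (by positivity) (by positivity) rfl
    (ne6' n k) (by positivity) (by positivity) (by positivity)
  unfold ct cq
  rw [show (1 + (k : ℚ)) = k + 1 by ring, show (2 + (k : ℚ)) = k + 2 by ring,
    show (3 + (k : ℚ)) = k + 3 by ring, show ((k : ℚ) + 1 + 1) = k + 2 by ring,
    show ((k : ℚ) + 1 + 2) = k + 3 by ring]
  exact h

theorem P1 (n K : ℕ) :
    ∑ k ∈ range K, (2 * (12 * (n : ℚ) + 1) * (12 * n + 7) * FB (n + 1) (k + 3) -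
    27 * (3 * n + 2) * (6 * n + 1) * FB n k) = ct n K * FB n K - ct n 0 := by
  induction K with
  | zero =>
    simp [FB_zero]
  | succ K ih =>
    rw [sum_range_succ, ih, step]
    push_cast
    ring

theorem first (n : ℕ) : 2 * (12 * (n : ℚ) + 1) * (12 * n + 7) *
    (FB (n + 1) 0 + FB (n + 1) 1 + FB (n + 1) 2) = ct n 0 := by
  have f1 : FB (n + 1) 1 = (3 * n + 3) * (3 * n + 4) / (2 * (12 * n + 7)) := by
    rw [show (1 : ℕ) = 0 + 1 by rfl, R1, FB_zero]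
    push_cast
    rw [one_mul, show (2 * (12 * ((n : ℚ) + 1) - 5 - 6 * 0) * (1 + 0)) = 2 * (12 * n + 7) by ring,
      show (3 * ((n : ℚ) + 1) - 0) * (3 * (n + 1) + 1 + 3 * 0) = (3 * n + 3) * (3 * n + 4) by ring]
  have f2 : FB (n + 1) 2 = (3 * n + 3) * (3 * n + 4) / (2 * (12 * n + 7)) *
      ((3 * n + 2) * (3 * n + 7) / (2 * (12 * n + 1) * 2)) := by
    rw [show (2 : ℕ) = 1 + 1 by rfl, R1, f1]
    push_cast
    rw [show (2 * (12 * ((n : ℚ) + 1) - 5 - 6 * 1) * (1 + 1)) = 2 * (12 * n + 1) * 2 by ring,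
      show (3 * ((n : ℚ) + 1) - 1) * (3 * (n + 1) + 1 + 3 * 1) = (3 * n + 2) * (3 * n + 7) by ring]
  rw [FB_zero, f1, f2]
  unfold ct pp
  have h1 : (12 * (n : ℚ) + 7) ≠ 0 := by positivity
  have h2 : (12 * (n : ℚ) + 1) ≠ 0 := by positivity
  field_simp
  ring

theorem top (n : ℕ) : FB n (3 * n + 1) = 0 := by
  rw [R1]
  push_cast
  ring

theorem S_succ (n : ℕ) : 2 * (12 * (n : ℚ) + 1) * (12 * n + 7) *
    ∑ k ∈ range (3 * (n + 1) + 1), FB (n + 1) k =
    27 * (3 * n + 2) * (6 * n + 1) * ∑ k ∈ range (3 * n + 1), FB n k := by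
  have h := P1 n (3 * n + 1)
  rw [sum_sub_distrib, ← mul_sum, ← mul_sum, top] at h
  rw [show 3 * (n + 1) + 1 = (3 * n + 1) + 1 + 1 + 1 by ring, sum_range_succ', sum_range_succ',
    sum_range_succ']
  have f := first n
  simp only [zero_add]
  linear_combination h + f

end NB

open NB

theorem thB : StmtB := by
  intro n
  induction n with
  | zero => norm_num [FB, sum_range_succ, prod_range_succ]
  | succ n ih =>
    have h := S_succ n
    rw [ih] at h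
    have h1 : (2 * (12 * (n : ℚ) + 1) * (12 * n + 7)) ≠ 0 := by positivity
    apply mul_left_cancel₀ h1
    rw [h, show 2 * (n + 1) = 2 * n + 1 + 1 by ring, prod_range_succ, prod_range_succ, pow_succ]
    have h2 : ((1 : ℚ) / 6 + ((2 * n : ℕ) : ℚ)) ≠ 0 := by positivity
    have h3 : ((1 : ℚ) / 6 + ((2 * n + 1 : ℕ) : ℚ)) ≠ 0 := by positivity
    generalize (∏ i ∈ range (2 * n), ((1 / 3 + (i : ℚ)) / (1 / 6 + i))) = P
    generalize ((27 : ℚ) / 16) ^ n = Q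
    push_cast at h2 h3 ⊢
    field_simp
    ring

end Pool.Agent.R488.Th
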