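import Mathlib
import Pool.Agent.R488.Th.Defs
import Pool.Agent.R488.Tw.Main

set_option autoImplicit false

/-!
`2F1(1/4,1/4;1;1/4)` (truncated) modulo `p^2`, `p = 1` modulo `3`.
-/

namespace Pool.Agent.R488.Th

open Finset Pool.Agent.R439.PL Pool.Agent.R439.PL.S4 Pool.Agent.R488.Tri Pool.Agent.R488.Cub
  Pool.Agent.R488.Nin Pool.Agent.R488.Sq

variable {p j M : ℕ} [hp : Fact p.Prime]

def ht (s : ℚ) (k : ℕ) : ℚ := (1 / 4) ^ k * ∏ i ∈ range k,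
  ((1 / 4 + i - s) * (1 / 4 + i + 3 * s) * ((1 + i + 2 * s) * (1 + i))⁻¹)

def HT (p : ℕ) (s : ℚ) : ℚ := ∑ k ∈ range p, ht s k

theorem lin_HT (hpj : p = 6 * j + 1) : Lin p (HT p) := by
  have u3 := U3 hpj
  have u4 := U4 hpj
  have m14 : (1 / 4 : ℚ) ∈ Zp p := by rw [one_div]; exact u4.2.2
  refine Lin.sum fun k hk => ?_
  have hk' := mem_range.1 hk
  have h1 : Lin p (fun u => (1 / 4 : ℚ) ^ k + 0 * u) := Lin.affine (pow_mem m14 _) (zero_mem _)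
  have h2 : Lin p (fun u => ∏ i ∈ range k,
      (((1 / 4 + i : ℚ) + (-1) * u) * ((1 / 4 + i : ℚ) + 3 * u) *
        (((1 + i : ℚ) + 2 * u) * ((1 + i : ℚ) + 0 * u))⁻¹)) := by
    refine Lin.prod fun i hi => ?_
    have hi' := mem_range.1 hi
    have a1 : (1 / 4 + i : ℚ) ∈ Zp p := add_mem m14 (nat_mem i)
    have u1 := U_nat (p := p) (k := 1 + i) (by omega) (by omega)
    push_cast at u1
    have m2 : (2 : ℚ) ∈ Zp p := by exact_mod_cast int_mem (p := p) 2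
    have m1 : (-1 : ℚ) ∈ Zp p := by exact_mod_cast int_mem (p := p) (-1)
    refine ((Lin.affine a1 m1).mul (Lin.affine a1 u3.2.1)).mul (Lin.inv ((Lin.affine u1.2.1 m2).mul
      (Lin.affine u1.2.1 (zero_mem _))) ?_)
    simpa using u1.mul u1
  have h3 := h1.mul h2
  have e : (fun u => ((1 / 4 : ℚ) ^ k + 0 * u) * ∏ i ∈ range k,
      (((1 / 4 + i : ℚ) + (-1) * u) * ((1 / 4 + i : ℚ) + 3 * u) *
        (((1 + i : ℚ) + 2 * u) * ((1 + i : ℚ) + 0 * u))⁻¹)) = fun u => ht u k := by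
    funext u
    rw [ht, zero_mul, add_zero]
    congr 1
    refine prod_congr rfl fun i _ => ?_
    rw [add_zero]
    congr 1
    · ring
  rwa [e] at h3

theorem FA_zero {n k : ℕ} (h : n < k) : FA n k = 0 := by
  rw [FA]
  refine prod_eq_zero (i := n) (mem_range.2 h) ?_
  rw [sub_self]; simp

theorem FB_zero {r k : ℕ} (h : 3 * r < k) : FB r k = 0 := by
  rw [FB]
  refine prod_eq_zero (i := 3 * r) (mem_range.2 h) ?_
  have : (3 * (r : ℚ) - ((3 * r : ℕ) : ℚ)) = 0 := by push_cast; ring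
  rw [this]; simp

theorem FC_zero {r k : ℕ} (h : 3 * r + 2 < k) : FC r k = 0 := by
  rw [FC]
  refine prod_eq_zero (i := 3 * r + 2) (mem_range.2 h) ?_
  have : (3 * (r : ℚ) + 2 - ((3 * r + 2 : ℕ) : ℚ)) = 0 := by push_cast; ring
  rw [this]; simp

theorem pw (k : ℕ) : (1 / 4 : ℚ) ^ k = ∏ i ∈ range k, (1 / 4 : ℚ) := by rw [prod_const, card_range]

/-- class 1, first point -/
theorem a_one (hpM : p = 12 * M + 1) (k : ℕ) : ht (p / 4) k = FA (3 * M) k := by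
  have hpq : (p : ℚ) = 12 * M + 1 := by exact_mod_cast hpM
  rw [ht, FA, pw, ← prod_mul_distrib]
  refine prod_congr rfl fun i _ => ?_
  have e1 : (1 / 4 + i - (p : ℚ) / 4 : ℚ) = (i : ℚ) - ((3 * M : ℕ) : ℚ) := by rw [hpq]; push_cast; ring
  have e2 : (1 / 4 + i + 3 * ((p : ℚ) / 4) : ℚ) = 3 * ((3 * M : ℕ) : ℚ) + 1 + i := by rw [hpq]; push_cast; ring
  have e3 : (1 + i + 2 * ((p : ℚ) / 4) : ℚ) = 2 * ((3 * M : ℕ) : ℚ) + 3 / 2 + i := by rw [hpq]; push_cast; ring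
  rw [e1, e2, e3, div_eq_mul_inv]
  ring

/-- class 1, second point -/
theorem a_two (hpM : p = 12 * M + 1) (k : ℕ) : ht (-(p / 12)) k = FB M k := by
  have hpq : (p : ℚ) = 12 * M + 1 := by exact_mod_cast hpM
  rw [ht, FB, pw, ← prod_mul_distrib]
  refine prod_congr rfl fun i _ => ?_
  have e1 : (1 / 4 + i - -((p : ℚ) / 12) : ℚ) = M + 1 / 3 + i := by rw [hpq]; ring
  have e2 : (1 / 4 + i + 3 * -((p : ℚ) / 12) : ℚ) = -(3 * (M : ℚ) - i) := by rw [hpq]; ring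
  have e3 : (1 + i + 2 * -((p : ℚ) / 12) : ℚ) = -(2 * (M : ℚ) - 5 / 6 - i) := by rw [hpq]; ring
  rw [e1, e2, e3, neg_mul (2 * (M : ℚ) - 5 / 6 - i), inv_neg, div_eq_mul_inv]
  ring

/-- class 7, first point -/
theorem b_one (hpM : p = 12 * M + 7) (k : ℕ) : ht (3 * p / 4) k = FA (9 * M + 5) k := by
  have hpq : (p : ℚ) = 12 * M + 7 := by exact_mod_cast hpM
  rw [ht, FA, pw, ← prod_mul_distrib]
  refine prod_congr rfl fun i _ => ?_
  have e1 : (1 / 4 + i - 3 * (p : ℚ) / 4 : ℚ) = (i : ℚ) - ((9 * M + 5 : ℕ) : ℚ) := by rw [hpq]; push_cast; ring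
  have e2 : (1 / 4 + i + 3 * (3 * (p : ℚ) / 4) : ℚ) = 3 * ((9 * M + 5 : ℕ) : ℚ) + 1 + i := by
    rw [hpq]; push_cast; ring
  have e3 : (1 + i + 2 * (3 * (p : ℚ) / 4) : ℚ) = 2 * ((9 * M + 5 : ℕ) : ℚ) + 3 / 2 + i := by
    rw [hpq]; push_cast; ring
  rw [e1, e2, e3, div_eq_mul_inv]
  ring

/-- class 7, second point -/
theorem b_two (hpM : p = 12 * M + 7) (k : ℕ) : ht (-(p / 4)) k = FC (3 * M + 1) k := by
  have hpq : (p : ℚ) = 12 * M + 7 := by exact_mod_cast hpM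
  rw [ht, FC, pw, ← prod_mul_distrib]
  refine prod_congr rfl fun i _ => ?_
  have e1 : (1 / 4 + i - -((p : ℚ) / 4) : ℚ) = ((3 * M + 1 : ℕ) : ℚ) + 1 + i := by rw [hpq]; push_cast; ring
  have e2 : (1 / 4 + i + 3 * -((p : ℚ) / 4) : ℚ) = -(3 * ((3 * M + 1 : ℕ) : ℚ) + 2 - i) := by
    rw [hpq]; push_cast; ring
  have e3 : (1 + i + 2 * -((p : ℚ) / 4) : ℚ) = -(2 * ((3 * M + 1 : ℕ) : ℚ) + 1 / 2 - i) := by
    rw [hpq]; push_cast; ring
  rw [e1, e2, e3, neg_mul (2 * ((3 * M + 1 : ℕ) : ℚ) + 1 / 2 - i), inv_neg, div_eq_mul_inv]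
  ring

theorem A_one (h : StmtA) (hpM : p = 12 * M + 1) : HT p (p / 4) =
    (16 / 27) ^ (3 * M) * ∏ i ∈ range (2 * (3 * M)), ((3 / 2 + i) / (4 / 3 + i) : ℚ) := by
  rw [← h (3 * M), HT, sum_congr rfl fun k _ => a_one hpM k]
  symm
  exact sum_subset (range_subset_range.2 (by omega)) fun k _ hk => FA_zero (by have := mt mem_range.2 hk; omega)

theorem A_two (h : StmtB) (hpM : p = 12 * M + 1) : HT p (-(p / 12)) =
    (27 / 16) ^ M * ∏ i ∈ range (2 * M), ((1 / 3 + i) / (1 / 6 + i) : ℚ) := by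
  rw [← h M, HT, sum_congr rfl fun k _ => a_two hpM k]
  symm
  exact sum_subset (range_subset_range.2 (by omega)) fun k _ hk => FB_zero (by have := mt mem_range.2 hk; omega)

theorem B_one (h : StmtA) (hpM : p = 12 * M + 7) : HT p (3 * p / 4) =
    (16 / 27) ^ (9 * M + 5) * ∏ i ∈ range (2 * (9 * M + 5)), ((3 / 2 + i) / (4 / 3 + i) : ℚ) := by
  rw [← h (9 * M + 5), HT, sum_congr rfl fun k _ => b_one hpM k]
  symm
  exact sum_subset (range_subset_range.2 (by omega)) fun k _ hk => FA_zero (by have := mt mem_range.2 hk; omega)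

theorem B_two (h : StmtC) (hpM : p = 12 * M + 7) : HT p (-(p / 4)) =
    3 / 2 * (27 / 16) ^ (3 * M + 1) *
      ∏ i ∈ range (2 * (3 * M + 1)), ((5 / 3 + i) / (3 / 2 + i) : ℚ) := by
  rw [← h (3 * M + 1), HT, sum_congr rfl fun k _ => b_two hpM k]
  symm
  exact sum_subset (range_subset_range.2 (by omega)) fun k _ hk => FC_zero (by have := mt mem_range.2 hk; omega)

/-- `∏_{i<3j} (3/2+i)/(4/3+i)` -/
theorem F2' (hpj : p = 6 * j + 1) (hj1 : 1 ≤ j) {a b C3 : ℚ} (hC3 : C3 = ((3 * j).choose j : ℚ))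
    (Ia : I p 1 a) (Ib : I p 1 b) (E3 : EQ p 2 (p * H (3 * j)) (-2 * a))
    (E2 : EQ p 2 (p * H (2 * j)) (-3 * b)) (E1 : EQ p 2 (p * H j) (-2 * a - 3 * b)) :
    EQ p 2 (∏ i ∈ range (3 * j), ((3 / 2 + i) / (4 / 3 + i) : ℚ))
      ((-1) ^ j * C3 * (1 + 5 / 3 * a)) := by
  have h := Tw.F2_eq hpj hj1 hC3 Ia Ib E3 E2 E1
  have u2 := U2 hpj
  have u3 := U3 hpj
  have m98 : (9 / 8 : ℚ) ∈ Zp p := by
    have : (9 / 8 : ℚ) = 3 * 3 * (2⁻¹ * 2⁻¹ * 2⁻¹) := by norm_num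
    rw [this]; exact mul_mem (mul_mem u3.2.1 u3.2.1) (mul_mem (mul_mem u2.2.2 u2.2.2) u2.2.2)
  have h1 := (EQ.refl (k := 2) m98).mul h
  have e1 : ∏ i ∈ range (3 * j), ((3 / 2 + i) / (4 / 3 + i) : ℚ) =
      9 / 8 * ∏ i ∈ range (3 * j - 1), ((5 / 2 + i) / (7 / 3 + i) : ℚ) := by
    obtain ⟨m, hm⟩ : ∃ m, 3 * j = m + 1 := ⟨3 * j - 1, by omega⟩
    rw [hm, prod_range_succ', Nat.add_sub_cancel]
    have : ∏ i ∈ range m, ((3 / 2 + ((i + 1 : ℕ) : ℚ)) / (4 / 3 + ((i + 1 : ℕ) : ℚ))) =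
        ∏ i ∈ range m, ((5 / 2 + i) / (7 / 3 + i) : ℚ) :=
      prod_congr rfl fun i _ => by
        congr 1
        · push_cast; ring
        · push_cast; ring
    rw [this]; push_cast; ring
  have e2 : 9 / 8 * (8 / 9 * ((-1) ^ j * C3 * (1 + 5 / 3 * a))) = (-1) ^ j * C3 * (1 + 5 / 3 * a) := by ring
  rwa [← e1, e2] at h1

end Pool.Agent.R488.Th
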