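import Mathlib
import Pool.Agent.R488.Th.Eval

set_option autoImplicit false

/-!
The value of the truncated `2F1(1/4,1/4;1;1/4)` modulo `p^2`.
-/

namespace Pool.Agent.R488.Th

open Finset Pool.Agent.R439.PL Pool.Agent.R439.PL.S4 Pool.Agent.R488.Tri Pool.Agent.R488.Cub
  Pool.Agent.R488.Nin Pool.Agent.R488.Sq

variable {p j M : ℕ} [hp : Fact p.Prime]

theorem C1 (hA : StmtA) (hB : StmtB) (hpM : p = 12 * M + 1) (hjM : j = 2 * M) {a b : ℚ}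
    (ha : a = 64 ^ j - 1) (hb : b = (-27) ^ j - 1) : EQ p 2 (HT p 0)
    (27 ^ M * ((1 + -(1 / 2) * b) * (((4 * j).choose (2 * j) : ℚ) * ((16 ^ j)⁻¹ * (1 + 2 / 3 * a))))) := by
  have hpj : p = 6 * j + 1 := by omega
  obtain ⟨a', b', C4, C3, C2, hC4, hC3, hC2, ha', hb', Ia, Ib, uC4, mC3, mC2, E3, E2, E1, e1, e6⟩ :=
    facts harm hpj
  rw [← ha] at ha'
  rw [← hb] at hb'
  have ha2 : a = a' := ha'.symm
  have hb2 : b = b' := hb'.symm
  clear ha' hb'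
  subst ha2 hb2
  have hj := j_pos hpj
  have u2 := U2 hpj
  have u3 := U3 hpj
  have u4 := U4 hpj
  have u12 : U p (12 : ℚ) := by
    have : (12 : ℚ) = 3 * 4 := by norm_num
    rw [this]; exact u3.mul u4
  have m34 : (3 / 4 : ℚ) ∈ Zp p := by rw [div_eq_mul_inv]; exact mul_mem u3.2.1 u4.2.2
  have m14 : (1 / 4 : ℚ) ∈ Zp p := by rw [one_div]; exact u4.2.2
  have m12 : (1 / 2 : ℚ) ∈ Zp p := by rw [one_div]; exact u2.2.2
  have hd12 : I p 1 ((p : ℚ) / 12) := by rw [div_eq_mul_inv]; exact (I_p (p := p)).mulR u12.2.2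
  have hd4 : I p 1 ((p : ℚ) / 4) := by rw [div_eq_mul_inv]; exact (I_p (p := p)).mulR u4.2.2
  have h0 := Lin.two (lin_HT hpj) hd4 hd12.neg m14 m34 (by norm_num) (by ring)
  have k1 := Tw.E1_eq hpj hC2 Ia Ib uC4 mC2 E2 E1 e6
  have k2 := F2' hpj (by omega) hC3 Ia Ib E3 E2 E1
  have uk : U p ((16 : ℚ) ^ M) := by
    have : (16 : ℚ) = 4 * 4 := by norm_num
    rw [this]; exact (u4.mul u4).pow M
  have ut : U p ((27 : ℚ) ^ M) := by
    have : (27 : ℚ) = 3 * 3 * 3 := by norm_num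
    rw [this]; exact ((u3.mul u3).mul u3).pow M
  obtain ⟨κ, hκ⟩ : ∃ κ : ℚ, κ = 16 ^ M := ⟨_, rfl⟩
  obtain ⟨τ, hτ⟩ : ∃ τ : ℚ, τ = 27 ^ M := ⟨_, rfl⟩
  rw [← hκ] at uk
  rw [← hτ] at ut
  have n4j : (-4 : ℚ) ^ j = κ := by
    rw [hjM, pow_mul, hκ]; norm_num
  have n16j : (16 : ℚ) ^ j = κ ^ 2 := by
    rw [hjM, hκ, ← pow_mul, mul_comm M 2]
  have ea : 1 + a = κ ^ 3 := by
    have k : (64 : ℚ) ^ (2 * M) = (16 ^ M) ^ 3 := by
      rw [pow_mul, ← pow_mul (16 : ℚ) M 3, mul_comm M 3, pow_mul (16 : ℚ) 3 M]; norm_num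
    rw [ha, hjM, k, hκ]; ring
  have eb : 1 + b = τ ^ 2 := by
    have k : (-27 : ℚ) ^ (2 * M) = (27 ^ M) ^ 2 := by
      rw [pow_mul, ← pow_mul (27 : ℚ) M 2, mul_comm M 2, pow_mul (27 : ℚ) 2 M]; norm_num
    rw [hb, hjM, k, hτ]; ring
  have hone : (-1 : ℚ) ^ j = 1 := by
    rw [hjM, pow_mul]; norm_num
  have mm : τ * (κ * κ)⁻¹ ∈ Zp p := mul_mem ut.2.1 (uk.mul uk).2.2
  -- F2
  have F2 : EQ p 2 (HT p (-(p / 12))) (τ * (κ * κ)⁻¹ * (C4 * (1 + -(1 / 2) * b))) := by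
    have h1 := A_two hB hpM
    have e : HT p (-(p / 12)) = τ * (κ * κ)⁻¹ *
        ((-4) ^ j * ∏ i ∈ range j, ((1 / 3 + i) / (1 / 6 + i) : ℚ)) := by
      obtain ⟨P, hP⟩ : ∃ P : ℚ, P = ∏ i ∈ range j, ((1 / 3 + i) / (1 / 6 + i) : ℚ) := ⟨_, rfl⟩
      rw [h1, ← hjM, n4j, div_pow, ← hκ, ← hτ, ← hP]
      have a1 := uk.1
      field_simp
    rw [e]
    exact (EQ.refl mm).mul k1
  -- F1
  have I32b : I p 1 (-(3 / 2) * b) := by
    have : -(3 / 2) * b = (-(3 * 2⁻¹)) * b := by ring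
    rw [this]; exact Ib.mulL (neg_mem (mul_mem u3.2.1 u2.2.2))
  have m5 : (5 : ℚ) ∈ Zp p := by exact_mod_cast nat_mem (p := p) 5
  have I53a : I p 1 (5 / 3 * a) := by
    have : 5 / 3 * a = (5 * 3⁻¹) * a := by ring
    rw [this]; exact Ia.mulL (mul_mem m5 u3.2.2)
  have F1 : EQ p 2 (HT p (p / 4)) (τ * (κ * κ)⁻¹ * (C4 * (1 + (8 / 3 * a + -(1 / 2) * b)))) := by
    have h1 := A_one hA hpM
    rw [show 2 * (3 * M) = 3 * j by omega] at h1
    have m1627 : ((16 / 27 : ℚ)) ^ (3 * M) ∈ Zp p := by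
      have : (16 / 27 : ℚ) = 4 * 4 * (3⁻¹ * 3⁻¹ * 3⁻¹) := by norm_num
      rw [this]; exact pow_mem (mul_mem (mul_mem u4.2.1 u4.2.1) (mul_mem (mul_mem u3.2.2 u3.2.2) u3.2.2)) _
    have h2 := (EQ.refl (k := 2) m1627).mul k2
    rw [← h1] at h2
    refine h2.trans ?_
    have c3 : EQ p 2 C3 ((16 ^ j)⁻¹ * (C4 * (1 + 3 / 2 * b))) := by
      have u16 : U p ((16 : ℚ) ^ j) := by
        have : (16 : ℚ) = 4 * 4 := by norm_num
        rw [this]; exact (u4.mul u4).pow j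
      have I32b' : I p 1 (3 / 2 * b) := by
        have : 3 / 2 * b = (3 * 2⁻¹) * b := by ring
        rw [this]; exact Ib.mulL (mul_mem u3.2.1 u2.2.2)
      have g1 := (EQ.refl (k := 2) u16.2.2).mul (e1.mul (EQ.refl (k := 2) (U_small I32b').2.1))
      have g2 : (16 ^ j)⁻¹ * (16 ^ j * C3 * (1 + -(3 / 2) * b) * (1 + 3 / 2 * b)) =
          C3 * ((1 + -(3 / 2) * b) * (1 + 3 / 2 * b)) := by
        have a1 := u16.1
        field_simp
      rw [g2] at g1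
      have g3 := (EQ.refl (k := 2) mC3).mul (mul_small I32b I32b')
      have g4 : C3 * (1 + -(3 / 2) * b + 3 / 2 * b) = C3 := by ring
      rw [g4] at g3
      exact (g1.trans g3).symm
    have m1 := neg_mem' (p := p) j
    have h3 := (EQ.refl (k := 2) m1627).mul
      (((EQ.refl (k := 2) m1).mul c3).mul (EQ.refl (k := 2) (U_small I53a).2.1))
    refine h3.trans ?_
    have e : (16 / 27 : ℚ) ^ (3 * M) * ((-1) ^ j * ((16 ^ j)⁻¹ * (C4 * (1 + 3 / 2 * b))) *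
        (1 + 5 / 3 * a)) = τ * (κ * κ)⁻¹ * (C4 *
        ((1 + a) * ((1 + b)⁻¹ * (1 + b)⁻¹) * ((1 + 3 / 2 * b) * (1 + 5 / 3 * a)))) := by
      rw [ea, eb, hone, n16j, pow_mul', div_pow, ← hκ, ← hτ]
      have a1 := uk.1
      have a2 := ut.1
      field_simp
    rw [e]
    refine (EQ.refl mm).mul ((EQ.refl uC4.2.1).mul ?_)
    have I32b' : I p 1 (3 / 2 * b) := by
      have : 3 / 2 * b = (3 * 2⁻¹) * b := by ring
      rw [this]; exact Ib.mulL (mul_mem u3.2.1 u2.2.2)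
    have s1 := inv_small Ib
    rw [sub_eq_add_neg] at s1
    have s2 := (s1.mul s1).trans (mul_small Ib.neg Ib.neg)
    have x1 : 1 + -b + -b = 1 + (-b + -b) := by ring
    rw [x1] at s2
    have s3 := ((EQ.refl (k := 2) (U_small Ia).2.1).mul s2).trans (mul_small Ia (Ib.neg.add Ib.neg))
    have x2 : 1 + a + (-b + -b) = 1 + (a + (-b + -b)) := by ring
    rw [x2] at s3
    have s4 := mul_small I32b' I53a
    have x3 : 1 + 3 / 2 * b + 5 / 3 * a = 1 + (3 / 2 * b + 5 / 3 * a) := by ring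
    rw [x3] at s4
    have s5 := (s3.mul s4).trans (mul_small (Ia.add (Ib.neg.add Ib.neg)) (I32b'.add I53a))
    have x4 : 1 + (a + (-b + -b)) + (3 / 2 * b + 5 / 3 * a) = 1 + (8 / 3 * a + -(1 / 2) * b) := by ring
    rwa [x4] at s5
  -- combine
  have h1 := h0.trans (((EQ.refl (k := 2) m14).mul F1).add ((EQ.refl (k := 2) m34).mul F2))
  refine h1.trans ?_
  have e : 1 / 4 * (τ * (κ * κ)⁻¹ * (C4 * (1 + (8 / 3 * a + -(1 / 2) * b)))) +
      3 / 4 * (τ * (κ * κ)⁻¹ * (C4 * (1 + -(1 / 2) * b))) =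
      τ * (C4 * (16 ^ j)⁻¹) * (1 + -(1 / 2) * b + 2 / 3 * a) := by
    rw [n16j]
    have a1 := uk.1
    field_simp
    ring
  rw [e, ← hτ, ← hC4]
  have I12b : I p 1 (-(1 / 2) * b) := Ib.mulL (neg_mem m12)
  have I23a : I p 1 (2 / 3 * a) := by
    have : 2 / 3 * a = (2 * 3⁻¹) * a := by ring
    rw [this]; exact Ia.mulL (mul_mem u2.2.1 u3.2.2)
  have u16 : U p ((16 : ℚ) ^ j) := by
    have : (16 : ℚ) = 4 * 4 := by norm_num
    rw [this]; exact (u4.mul u4).pow j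
  have mm2 : τ * (C4 * (16 ^ j)⁻¹) ∈ Zp p := mul_mem ut.2.1 (mul_mem uC4.2.1 u16.2.2)
  have h3 := (EQ.refl (k := 2) mm2).mul (mul_small I12b I23a).symm
  have e2 : τ * (C4 * (16 ^ j)⁻¹) * ((1 + -(1 / 2) * b) * (1 + 2 / 3 * a)) =
      τ * ((1 + -(1 / 2) * b) * (C4 * ((16 ^ j)⁻¹ * (1 + 2 / 3 * a)))) := by ring
  rwa [e2] at h3

theorem C7 (hA : StmtA) (hC : StmtC) (hV : StmtV) (hW : StmtW) (hpM : p = 12 * M + 7)
    (hjM : j = 2 * M + 1) {a b : ℚ}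
    (ha : a = 64 ^ j - 1) (hb : b = (-27) ^ j - 1) : EQ p 2 (HT p 0)
    (3 / 2 * (3 * 27 ^ M * ((1 + -(1 / 2) * b) *
      (((4 * j).choose (2 * j) : ℚ) * ((16 ^ j)⁻¹ * (1 + 2 / 3 * a)))))) := by
  have hpj : p = 6 * j + 1 := by omega
  obtain ⟨a', b', C4, C3, C2, hC4, hC3, hC2, ha', hb', Ia, Ib, uC4, mC3, mC2, E3, E2, E1, e1, e6⟩ :=
    facts harm hpj
  rw [← ha] at ha'
  rw [← hb] at hb'
  have ha2 : a = a' := ha'.symm
  have hb2 : b = b' := hb'.symm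
  clear ha' hb'
  subst ha2 hb2
  have hj := j_pos hpj
  have u2 := U2 hpj
  have u3 := U3 hpj
  have u4 := U4 hpj
  have m34 : (3 / 4 : ℚ) ∈ Zp p := by rw [div_eq_mul_inv]; exact mul_mem u3.2.1 u4.2.2
  have m14 : (1 / 4 : ℚ) ∈ Zp p := by rw [one_div]; exact u4.2.2
  have m12 : (1 / 2 : ℚ) ∈ Zp p := by rw [one_div]; exact u2.2.2
  have m32 : (3 / 2 : ℚ) ∈ Zp p := by rw [div_eq_mul_inv]; exact mul_mem u3.2.1 u2.2.2
  have m92 : (9 / 2 : ℚ) ∈ Zp p := by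
    have : (9 / 2 : ℚ) = 3 * 3 * 2⁻¹ := by norm_num
    rw [this]; exact mul_mem (mul_mem u3.2.1 u3.2.1) u2.2.2
  have m98 : (9 / 8 : ℚ) ∈ Zp p := by
    have : (9 / 8 : ℚ) = 3 * 3 * (2⁻¹ * 2⁻¹ * 2⁻¹) := by norm_num
    rw [this]; exact mul_mem (mul_mem u3.2.1 u3.2.1) (mul_mem (mul_mem u2.2.2 u2.2.2) u2.2.2)
  have hd34 : I p 1 (3 * (p : ℚ) / 4) := by
    have : 3 * (p : ℚ) / 4 = p * (3 / 4) := by ring
    rw [this]; exact (I_p (p := p)).mulR m34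
  have hd4 : I p 1 ((p : ℚ) / 4) := by rw [div_eq_mul_inv]; exact (I_p (p := p)).mulR u4.2.2
  have h0 := Lin.two (lin_HT hpj) hd34 hd4.neg m14 m34 (by norm_num) (by ring)
  have k1 := hV p j hpj a b C4 hC4 ha hb
  have k2 := (F2' hpj (by omega) hC3 Ia Ib E3 E2 E1).mul (hW p j hpj a b ha hb)
  have uk : U p ((16 : ℚ) ^ M) := by
    have : (16 : ℚ) = 4 * 4 := by norm_num
    rw [this]; exact (u4.mul u4).pow M
  have ut : U p ((27 : ℚ) ^ M) := by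
    have : (27 : ℚ) = 3 * 3 * 3 := by norm_num
    rw [this]; exact ((u3.mul u3).mul u3).pow M
  obtain ⟨κ, hκ⟩ : ∃ κ : ℚ, κ = 16 ^ M := ⟨_, rfl⟩
  obtain ⟨τ, hτ⟩ : ∃ τ : ℚ, τ = 27 ^ M := ⟨_, rfl⟩
  rw [← hκ] at uk
  rw [← hτ] at ut
  have n4j : (-4 : ℚ) ^ j = -4 * κ := by
    rw [hjM, pow_succ, pow_mul, hκ]; norm_num; ring
  have n16j : (16 : ℚ) ^ j = 16 * κ ^ 2 := by
    rw [hjM, pow_succ, hκ, ← pow_mul, mul_comm M 2]; ring
  have ea : 1 + a = 64 * κ ^ 3 := by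
    have k : (64 : ℚ) ^ (2 * M) = (16 ^ M) ^ 3 := by
      rw [pow_mul, ← pow_mul (16 : ℚ) M 3, mul_comm M 3, pow_mul (16 : ℚ) 3 M]; norm_num
    rw [ha, hjM, pow_succ, k, hκ]; ring
  have eb : 1 + b = -27 * τ ^ 2 := by
    have k : (-27 : ℚ) ^ (2 * M) = (27 ^ M) ^ 2 := by
      rw [pow_mul, ← pow_mul (27 : ℚ) M 2, mul_comm M 2, pow_mul (27 : ℚ) 2 M]; norm_num
    rw [hb, hjM, pow_succ, k, hτ]; ring
  have hone : (-1 : ℚ) ^ j = -1 := by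
    rw [hjM, pow_succ, pow_mul]; norm_num
  have u16 : U p ((16 : ℚ) ^ j) := by
    have : (16 : ℚ) = 4 * 4 := by norm_num
    rw [this]; exact (u4.mul u4).pow j
  have mm : 9 / 2 * (τ * (κ * κ * 16)⁻¹) ∈ Zp p := by
    have u' : U p (16 : ℚ) := by
      have : (16 : ℚ) = 4 * 4 := by norm_num
      rw [this]; exact u4.mul u4
    exact mul_mem m92 (mul_mem ut.2.1 ((uk.mul uk).mul u').2.2)
  have I32b' : I p 1 (3 / 2 * b) := Ib.mulL m32
  have I32b : I p 1 (-(3 / 2) * b) := Ib.mulL (neg_mem m32)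
  have m5 : (5 : ℚ) ∈ Zp p := by exact_mod_cast nat_mem (p := p) 5
  have I53a : I p 1 (5 / 3 * a) := by
    have : 5 / 3 * a = (5 * 3⁻¹) * a := by ring
    rw [this]; exact Ia.mulL (mul_mem m5 u3.2.2)
  have Iab : I p 1 (2 * a + 3 * b) := (Ia.mulL u2.2.1).add (Ib.mulL u3.2.1)
  have Iab2 : I p 1 (-(4 / 3) * a + -(3 / 2) * b) := by
    have : -(4 / 3) * a = (-(4 * 3⁻¹)) * a := by ring
    rw [this]; exact (Ia.mulL (neg_mem (mul_mem u4.2.1 u3.2.2))).add I32b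
  -- F2
  have F2 : EQ p 2 (HT p (-(p / 4))) (9 / 2 * (τ * (κ * κ * 16)⁻¹) *
      (C4 * (1 + (-(4 / 3) * a + -(1 / 2) * b)))) := by
    have h1 := B_two hC hpM
    rw [show 2 * (3 * M + 1) = 3 * j - 1 by omega] at h1
    have m2716 : 3 / 2 * ((27 / 16 : ℚ)) ^ (3 * M + 1) ∈ Zp p := by
      have : (27 / 16 : ℚ) = 3 * 3 * 3 * (4⁻¹ * 4⁻¹) := by norm_num
      rw [this]; exact mul_mem m32 (pow_mem (mul_mem (mul_mem (mul_mem u3.2.1 u3.2.1) u3.2.1)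
        (mul_mem u4.2.2 u4.2.2)) _)
    have h2 := (EQ.refl (k := 2) m2716).mul k1
    rw [← h1] at h2
    refine h2.trans ?_
    have e : 3 / 2 * (27 / 16 : ℚ) ^ (3 * M + 1) * (3 / 4 * ((-4) ^ j *
        (C4 * (1 + (-(4 / 3) * a + -(3 / 2) * b))))) = 9 / 2 * (τ * (κ * κ * 16)⁻¹) *
        (C4 * ((1 + b) * (1 + (-(4 / 3) * a + -(3 / 2) * b)))) := by
      rw [eb, n4j, pow_succ, pow_mul', div_pow, ← hκ, ← hτ]
      have a1 := uk.1
      field_simp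
      ring
    rw [e]
    refine (EQ.refl mm).mul ((EQ.refl uC4.2.1).mul ?_)
    have s := mul_small Ib Iab2
    have x : 1 + b + (-(4 / 3) * a + -(3 / 2) * b) = 1 + (-(4 / 3) * a + -(1 / 2) * b) := by ring
    rwa [x] at s
  -- F1
  have F1 : EQ p 2 (HT p (3 * p / 4)) (9 / 2 * (τ * (κ * κ * 16)⁻¹) *
      (C4 * (1 + (20 / 3 * a + -(1 / 2) * b)))) := by
    have h1 := B_one hA hpM
    have hsplit : ∏ i ∈ range (2 * (9 * M + 5)), ((3 / 2 + i) / (4 / 3 + i) : ℚ) =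
        (∏ i ∈ range (3 * j), ((3 / 2 + i) / (4 / 3 + i) : ℚ)) *
        ∏ i ∈ range (6 * j + 1), ((3 / 2 + (3 * j + i)) / (4 / 3 + (3 * j + i)) : ℚ) := by
      rw [show 2 * (9 * M + 5) = 3 * j + (6 * j + 1) by omega, prod_range_add]
      congr 1
      refine prod_congr rfl fun i _ => ?_
      push_cast; rfl
    rw [hsplit] at h1
    have m1627 : ((16 / 27 : ℚ)) ^ (9 * M + 5) ∈ Zp p := by
      have : (16 / 27 : ℚ) = 4 * 4 * (3⁻¹ * 3⁻¹ * 3⁻¹) := by norm_num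
      rw [this]; exact pow_mem (mul_mem (mul_mem u4.2.1 u4.2.1) (mul_mem (mul_mem u3.2.2 u3.2.2) u3.2.2)) _
    have h2 := (EQ.refl (k := 2) m1627).mul k2
    rw [← h1] at h2
    refine h2.trans ?_
    have c3 : EQ p 2 C3 ((16 ^ j)⁻¹ * (C4 * (1 + 3 / 2 * b))) := by
      have g1 := (EQ.refl (k := 2) u16.2.2).mul (e1.mul (EQ.refl (k := 2) (U_small I32b').2.1))
      have g2 : (16 ^ j)⁻¹ * (16 ^ j * C3 * (1 + -(3 / 2) * b) * (1 + 3 / 2 * b)) =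
          C3 * ((1 + -(3 / 2) * b) * (1 + 3 / 2 * b)) := by
        have a1 := u16.1
        field_simp
      rw [g2] at g1
      have g3 := (EQ.refl (k := 2) mC3).mul (mul_small I32b I32b')
      have g4 : C3 * (1 + -(3 / 2) * b + 3 / 2 * b) = C3 := by ring
      rw [g4] at g3
      exact (g1.trans g3).symm
    have m1 := neg_mem' (p := p) j
    have h3 := (EQ.refl (k := 2) m1627).mul
      ((((EQ.refl (k := 2) m1).mul c3).mul (EQ.refl (k := 2) (U_small I53a).2.1)).mul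
        (EQ.refl (k := 2) (mul_mem m98 (U_small Iab).2.1)))
    refine h3.trans ?_
    have e : (16 / 27 : ℚ) ^ (9 * M + 5) * ((-1) ^ j * ((16 ^ j)⁻¹ * (C4 * (1 + 3 / 2 * b))) *
        (1 + 5 / 3 * a) * (9 / 8 * (1 + (2 * a + 3 * b)))) = 9 / 2 * (τ * (κ * κ * 16)⁻¹) * (C4 *
        ((((1 + a) * (1 + a) * (1 + a)) * (((1 + b)⁻¹ * (1 + b)⁻¹) * ((1 + b)⁻¹ * (1 + b)⁻¹) * (1 + b)⁻¹)) *
          (((1 + 3 / 2 * b) * (1 + 5 / 3 * a)) * (1 + (2 * a + 3 * b))))) := by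
      rw [ea, eb, hone, n16j, pow_add, pow_mul', div_pow, ← hκ, ← hτ]
      have a1 := uk.1
      have a2 := ut.1
      field_simp
      ring
    rw [e]
    refine (EQ.refl mm).mul ((EQ.refl uC4.2.1).mul ?_)
    have s1 := inv_small Ib
    rw [sub_eq_add_neg] at s1
    have s2 := (s1.mul s1).trans (mul_small Ib.neg Ib.neg)
    have x1 : 1 + -b + -b = 1 + (-b + -b) := by ring
    rw [x1] at s2
    have I2 := Ib.neg.add Ib.neg
    have s3 := (s2.mul s2).trans (mul_small I2 I2)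
    have x2 : 1 + (-b + -b) + (-b + -b) = 1 + (-b + -b + (-b + -b)) := by ring
    rw [x2] at s3
    have I4 := I2.add I2
    have s4 := (s3.mul s1).trans (mul_small I4 Ib.neg)
    have x3 : 1 + (-b + -b + (-b + -b)) + -b = 1 + (-b + -b + (-b + -b) + -b) := by ring
    rw [x3] at s4
    have I5 := I4.add Ib.neg
    have r1 := mul_small Ia Ia
    have y1 : 1 + a + a = 1 + (a + a) := by ring
    rw [y1] at r1
    have r2 := (r1.mul (EQ.refl (k := 2) (U_small Ia).2.1)).trans (mul_small (Ia.add Ia) Ia)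
    have y2 : 1 + (a + a) + a = 1 + (a + a + a) := by ring
    rw [y2] at r2
    have I3 := (Ia.add Ia).add Ia
    have q1 := (r2.mul s4).trans (mul_small I3 I5)
    have y3 : 1 + (a + a + a) + (-b + -b + (-b + -b) + -b) = 1 + (a + a + a + (-b + -b + (-b + -b) + -b)) := by
      ring
    rw [y3] at q1
    have I6 := I3.add I5
    have t1 := mul_small I32b' I53a
    have z1 : 1 + 3 / 2 * b + 5 / 3 * a = 1 + (3 / 2 * b + 5 / 3 * a) := by ring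
    rw [z1] at t1
    have I7 := I32b'.add I53a
    have t2 := (t1.mul (EQ.refl (k := 2) (U_small Iab).2.1)).trans (mul_small I7 Iab)
    have z2 : 1 + (3 / 2 * b + 5 / 3 * a) + (2 * a + 3 * b) = 1 + (3 / 2 * b + 5 / 3 * a + (2 * a + 3 * b)) := by
      ring
    rw [z2] at t2
    have I8 := I7.add Iab
    have q2 := (q1.mul t2).trans (mul_small I6 I8)
    have z3 : 1 + (a + a + a + (-b + -b + (-b + -b) + -b)) + (3 / 2 * b + 5 / 3 * a + (2 * a + 3 * b)) =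
        1 + (20 / 3 * a + -(1 / 2) * b) := by ring
    rwa [z3] at q2
  -- combine
  have h1 := h0.trans (((EQ.refl (k := 2) m14).mul F1).add ((EQ.refl (k := 2) m34).mul F2))
  refine h1.trans ?_
  have e : 1 / 4 * (9 / 2 * (τ * (κ * κ * 16)⁻¹) * (C4 * (1 + (20 / 3 * a + -(1 / 2) * b)))) +
      3 / 4 * (9 / 2 * (τ * (κ * κ * 16)⁻¹) * (C4 * (1 + (-(4 / 3) * a + -(1 / 2) * b)))) =
      9 / 2 * (τ * (C4 * (16 ^ j)⁻¹)) * (1 + -(1 / 2) * b + 2 / 3 * a) := by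
    rw [n16j]
    have a1 := uk.1
    field_simp
    ring
  rw [e, ← hτ, ← hC4]
  have I12b : I p 1 (-(1 / 2) * b) := Ib.mulL (neg_mem m12)
  have I23a : I p 1 (2 / 3 * a) := by
    have : 2 / 3 * a = (2 * 3⁻¹) * a := by ring
    rw [this]; exact Ia.mulL (mul_mem u2.2.1 u3.2.2)
  have mm2 : 9 / 2 * (τ * (C4 * (16 ^ j)⁻¹)) ∈ Zp p :=
    mul_mem m92 (mul_mem ut.2.1 (mul_mem uC4.2.1 u16.2.2))
  have h3 := (EQ.refl (k := 2) mm2).mul (mul_small I12b I23a).symm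
  have e2 : 9 / 2 * (τ * (C4 * (16 ^ j)⁻¹)) * ((1 + -(1 / 2) * b) * (1 + 2 / 3 * a)) =
      3 / 2 * (3 * τ * ((1 + -(1 / 2) * b) * (C4 * ((16 ^ j)⁻¹ * (1 + 2 / 3 * a))))) := by ring
  rwa [e2] at h3

end Pool.Agent.R488.Th
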