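import Mathlib
import Pool.Agent.R488.Th.Main

set_option autoImplicit false

/-!
The final congruences.
-/

namespace Pool.Agent.R488.Th

open Finset Pool.Agent.R439.PL Pool.Agent.R439.PL.S4 Pool.Agent.R488.Tri Pool.Agent.R488.Cub
  Pool.Agent.R488.Nin Pool.Agent.R488.Sq

variable {p j M : ℕ} [hp : Fact p.Prime]

theorem final7 (hSA : StmtA) (hSC : StmtC) (hV : StmtV) (hW : StmtW) (hJ : Tw.StmtJ) (hS : Tw.StmtSgn)
    (hF : Tw.StmtF) (hQ : Tw.StmtUniq) (hC : Tw.StmtC) (hD : Tw.StmtD)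
    (hpM : p = 12 * M + 7) {x y : ℤ} (hxy : (p : ℤ) = x ^ 2 + 3 * y ^ 2) (hy : y % 4 = 1) :
    EQ p 2 (HT p 0) (3 * y - p / (4 * y)) := by
  obtain ⟨j, hjM⟩ : ∃ j, j = 2 * M + 1 := ⟨_, rfl⟩
  have hpj : p = 6 * j + 1 := by omega
  have u2 := U2 hpj
  have u3 := U3 hpj
  have m32 : (3 / 2 : ℚ) ∈ Zp p := by rw [div_eq_mul_inv]; exact mul_mem u3.2.1 u2.2.2
  have h1 := C7 hSA hSC hV hW hpM hjM (a := 64 ^ j - 1) (b := (-27) ^ j - 1) rfl rfl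
  have h2 := Tw.GT_eq hC hD hpM hjM (a := 64 ^ j - 1) (b := (-27) ^ j - 1) rfl rfl
  have h3 := Tw.final hJ hS hF hQ hC hD hpM hxy hy
  have h4 := (EQ.refl (k := 2) m32).mul (h2.symm.trans h3)
  have h5 := h1.trans h4
  have e : 3 / 2 * (2 * (y : ℚ) - p / (6 * y)) = 3 * y - p / (4 * y) := by ring
  rwa [e] at h5

theorem final1 (hSA : StmtA) (hSB : StmtB) (hS : StmtS) (hJ : Tw.StmtJ) (hF : Tw.StmtF)
    (hpM : p = 12 * M + 1) : ∃ A B e : ℤ, (p : ℤ) = A ^ 2 + 3 * B ^ 2 ∧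
      (A % 4 = 1 ∧ e = 1 ∨ A % 4 = 3 ∧ e = -1) ∧ EQ p 2 (HT p 0) (e * (2 * A - p / (2 * A))) := by
  obtain ⟨j, hjM⟩ : ∃ j, j = 2 * M := ⟨_, rfl⟩
  have hpj : p = 6 * j + 1 := by omega
  obtain ⟨a, b, C4, C3, C2, hC4, hC3, hC2, ha, hb, Ia, Ib, uC4, mC3, mC2, E3, E2, E1, e1, e6⟩ :=
    facts harm hpj
  have u2 := U2 hpj
  have u3 := U3 hpj
  have u4 := U4 hpj
  have m12 : (1 / 2 : ℚ) ∈ Zp p := by rw [one_div]; exact u2.2.2
  have m32 : (3 / 2 : ℚ) ∈ Zp p := by rw [div_eq_mul_inv]; exact mul_mem u3.2.1 u2.2.2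
  have I12b : I p 1 (-(1 / 2) * b) := Ib.mulL (neg_mem m12)
  have hg := C1 hSA hSB hpM hjM ha hb
  rw [← hC4] at hg
  obtain ⟨A, B, t, hAB, hA, ht, hJS⟩ := hJ p j hpj
  have hf := hF p j hpj a ha
  have ut : U p ((27 : ℚ) ^ M) := by
    have : (27 : ℚ) = 3 * 3 * 3 := by norm_num
    rw [this]; exact ((u3.mul u3).mul u3).pow M
  obtain ⟨τ, hτ⟩ : ∃ τ : ℚ, τ = 27 ^ M := ⟨_, rfl⟩
  rw [← hτ] at ut
  have eb : 1 + b = τ ^ 2 := by
    have k : (-27 : ℚ) ^ (2 * M) = (27 ^ M) ^ 2 := by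
      rw [pow_mul, ← pow_mul (27 : ℚ) M 2, mul_comm M 2, pow_mul (27 : ℚ) 2 M]; norm_num
    rw [hb, hjM, k, hτ]; ring
  obtain ⟨l, hl⟩ : ∃ l : ℚ, l = (A : ℚ) + B * t := ⟨_, rfl⟩
  rw [← hl] at hJS
  have mt : (t : ℚ) ∈ Zp p := int_mem t
  have mA : (A : ℚ) ∈ Zp p := int_mem A
  have mB : (B : ℚ) ∈ Zp p := int_mem B
  have It : I p 2 ((t : ℚ) ^ 2 + 3) := by
    have := Tw.I_of_dvd (p := p) ht
    push_cast at this
    exact this
  have c1 : EQ p 2 (C4 * ((16 ^ j)⁻¹ * (1 + 2 / 3 * a))) (-l) := by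
    have h1 := (JS_eq (p := p) hpj)
    rw [← hC4] at h1
    have h2 := (h1.mul (EQ.refl (k := 2) hf.1)).symm.trans hJS
    have h3 := ((EQ.refl (k := 2) uC4.2.1).mul hf).symm
    have h4 := h3.trans ((h2.neg).symm.symm.trans (EQ.refl h2.neg.2.1) |>.symm.symm |> fun h => by
      have e : -(-C4 * (256 : ℚ) ^ (j * p)) = C4 * 256 ^ (j * p) := by ring
      rw [e] at h
      exact h)
    exact h4
  have ul : U p l := by
    have u16 : U p ((16 : ℚ) ^ j) := by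
      have : (16 : ℚ) = 4 * 4 := by norm_num
      rw [this]; exact (u4.mul u4).pow j
    have I23a : I p 1 (2 / 3 * a) := by
      have : 2 / 3 * a = (2 * 3⁻¹) * a := by ring
      rw [this]; exact Ia.mulL (mul_mem u2.2.1 u3.2.2)
    have h1 : U p (C4 * ((16 ^ j)⁻¹ * (1 + 2 / 3 * a))) := uC4.mul (u16.inv.mul (U_small I23a))
    have h2 := U_neg (c1.unit (by norm_num) h1)
    rwa [neg_neg] at h2
  obtain ⟨μ, hμ⟩ : ∃ μ : ℚ, μ = (A : ℚ) - B * t := ⟨_, rfl⟩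
  have mμ : μ ∈ Zp p := by rw [hμ]; exact sub_mem mA (mul_mem mB mt)
  have hlμ : I p 2 (l * μ - p) := by
    have e : l * μ - p = -(B : ℚ) * B * ((t : ℚ) ^ 2 + 3) := by
      have h : ((p : ℤ) : ℚ) = (A : ℚ) ^ 2 + 3 * (B : ℚ) ^ 2 := by exact_mod_cast congrArg (Int.cast (R := ℚ)) hAB
      have h' : (p : ℚ) = (A : ℚ) ^ 2 + 3 * (B : ℚ) ^ 2 := by exact_mod_cast h
      rw [hl, hμ, h']; ring
    rw [e]; exact It.mulL (mul_mem (neg_mem mB) mB)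
  have Iμ : I p 1 μ := by
    refine ul.cancel ?_
    have e : l * μ = (l * μ - p) + p := by ring
    rw [e]; exact (hlμ.mono (by norm_num)).add I_p
  have uA : U p (A : ℚ) := by
    refine U_of_not_I mA fun h => ?_
    have h1 : I p 1 l := by
      have e : l = 2 * A - μ := by rw [hl, hμ]; ring
      rw [e]; exact (h.mulL u2.2.1).sub Iμ
    exact ul.not_I (by norm_num) h1
  have hAodd : A % 2 = 1 := by
    rcases Int.emod_two_eq_zero_or_one A with h0 | h0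
    · exfalso
      obtain ⟨d, hd⟩ : ∃ d, A = 2 * d := ⟨A / 2, by omega⟩
      rcases Int.emod_two_eq_zero_or_one B with h1 | h1
      · obtain ⟨c, hc⟩ : ∃ c, B = 2 * c := ⟨B / 2, by omega⟩
        have : (p : ℤ) = 4 * (d ^ 2 + 3 * c ^ 2) := by rw [hAB, hc, hd]; ring
        omega
      · obtain ⟨c, hc⟩ : ∃ c, B = 2 * c + 1 := ⟨B / 2, by omega⟩
        have : (p : ℤ) = 4 * (d ^ 2 + 3 * c ^ 2 + 3 * c) + 3 := by rw [hAB, hc, hd]; ring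
        omega
    · exact h0
  obtain ⟨s1, s2⟩ := hS p M hp.out hpM A B hAB hA
  obtain ⟨e, he, heτ⟩ : ∃ e : ℤ, (A % 4 = 1 ∧ e = 1 ∨ A % 4 = 3 ∧ e = -1) ∧ (p : ℤ) ∣ 27 ^ M + e := by
    rcases (show A % 4 = 1 ∨ A % 4 = 3 by omega) with h | h
    · exact ⟨1, Or.inl ⟨h, rfl⟩, s1 h⟩
    · exact ⟨-1, Or.inr ⟨h, rfl⟩, by have := s2 h; rwa [sub_eq_add_neg] at this⟩
  refine ⟨A, B, e, hAB, he, ?_⟩
  have he2 : (e : ℚ) * e = 1 := by
    rcases he with ⟨-, h⟩ | ⟨-, h⟩ <;> rw [h] <;> norm_num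
  have me : (e : ℚ) ∈ Zp p := int_mem e
  obtain ⟨x, hx⟩ : ∃ x : ℚ, x = -e * τ - 1 := ⟨_, rfl⟩
  have Ix : I p 1 x := by
    have h1 : I p 1 ((27 ^ M + e : ℤ) : ℚ) := Tw.I_of_dvd (p := p) (k := 1) (by simpa using heτ)
    have e' : x = -e * ((27 ^ M + e : ℤ) : ℚ) := by
      push_cast
      rw [hx, ← hτ]
      linear_combination he2
    rw [e']; exact h1.mulL (neg_mem me)
  have hτx : τ = -e * (1 + x) := by
    rw [hx]; linear_combination (-τ) * he2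
  have hbx : b = 2 * x + x * x := by
    have : b = τ ^ 2 - 1 := by linear_combination eb
    rw [this, hτx]
    linear_combination ((1 + x) ^ 2) * he2
  obtain ⟨θ, hθ⟩ : ∃ θ : ℚ, θ = τ * (1 + -(1 / 2) * b) := ⟨_, rfl⟩
  have mθ : θ ∈ Zp p := by rw [hθ]; exact mul_mem ut.2.1 (U_small I12b).2.1
  have hθx : θ = -e * (1 - 3 / 2 * (x * x) - 1 / 2 * (x * x) * x) := by
    rw [hθ, hbx, hτx]; ring
  have hg2 := (EQ.refl (k := 2) mθ).mul c1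
  have e1' : 27 ^ M * ((1 + -(1 / 2) * b) * (C4 * ((16 ^ j)⁻¹ * (1 + 2 / 3 * a)))) =
      θ * (C4 * ((16 ^ j)⁻¹ * (1 + 2 / 3 * a))) := by
    rw [hθ, hτ]; ring
  rw [e1'] at hg
  have mfin : (e : ℚ) * (2 * A - p / (2 * A)) ∈ Zp p :=
    mul_mem me (sub_mem (mul_mem u2.2.1 mA) (by rw [div_eq_mul_inv]; exact mul_mem p_mem (u2.mul uA).2.2))
  refine (hg.trans hg2).trans ⟨hg2.2.1, mfin, ?_⟩
  refine (u2.mul uA).cancel ?_
  have hA0 := uA.1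
  have h2A : 2 * (A : ℚ) = l + μ := by rw [hl, hμ]; ring
  have e2 : 2 * (A : ℚ) * (e * (2 * A - p / (2 * A))) = e * (4 * A * A - p) := by
    field_simp
    ring
  have e5 : 2 * (A : ℚ) * (θ * -l - e * (2 * A - p / (2 * A))) = -(e : ℚ) * ((l * μ - p) + μ * μ) -
      e * l * (2 * A) * (3 / 2 * (x * x) + 1 / 2 * ((x * x) * x)) := by
    rw [mul_sub, e2, hθx]
    linear_combination (-(e : ℚ) * (2 * A + μ)) * h2A
  rw [e5]
  have hxx : I p 2 (x * x) := Ix.mul Ix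
  exact ((hlμ.add (Iμ.mul Iμ)).mulL (neg_mem me)).sub
    (((hxx.mulL m32).add ((hxx.mulR Ix.mem).mulL m12)).mulL (mul_mem (mul_mem me ul.2.1) (mul_mem u2.2.1 mA)))

end Pool.Agent.R488.Th
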