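import Pool.Agent.R488.Th.Defs

set_option autoImplicit false

/-!
TH-S: the sign for `p = 12 M + 1`.
-/

namespace Pool.Agent.R488.Th

namespace PS

open NumberTheorySymbols

theorem gcd_one {p : ℕ} (hp : p.Prime) {A y : ℤ} (h : (p : ℤ) = A ^ 2 + 3 * y ^ 2) :
    Int.gcd A y = 1 := by
  have h1 : ((Int.gcd A y : ℕ) : ℤ) ∣ A := Int.gcd_dvd_left _ _
  have h2 : ((Int.gcd A y : ℕ) : ℤ) ∣ y := Int.gcd_dvd_right _ _
  have h3 : ((Int.gcd A y : ℕ) : ℤ) * ((Int.gcd A y : ℕ) : ℤ) ∣ (p : ℤ) := by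
    rw [h, pow_two, pow_two]
    exact dvd_add (mul_dvd_mul h1 h1) (Dvd.dvd.mul_left (mul_dvd_mul h2 h2) 3)
  have h4 : Int.gcd A y * Int.gcd A y ∣ p := by exact_mod_cast h3
  have h5 := hp.prime.squarefree (Int.gcd A y) h4
  exact Nat.isUnit_iff.mp h5

theorem neg_one {p : ℕ} (h : p % 4 = 1) (a : ℤ) : J(-a | p) = J(a | p) := by
  have hodd : Odd p := by rw [Nat.odd_iff]; omega
  rw [jacobiSym.neg a hodd, ZMod.χ₄_nat_one_mod_four h]
  ring

theorem natAbs_sym {p : ℕ} (h : p % 4 = 1) (a : ℤ) : J(a | p) = J((a.natAbs : ℤ) | p) := by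
  rcases Int.natAbs_eq a with hs | hs
  · conv_lhs => rw [hs]
  · conv_lhs => rw [hs]
    exact neg_one h _

/-- parities -/
theorem par {p M : ℕ} (hpM : p = 12 * M + 1) {A B : ℤ} (h : (p : ℤ) = A ^ 2 + 3 * B ^ 2) :
    (∃ a : ℤ, A = 2 * a + 1) ∧ ∃ b : ℤ, B = 2 * b := by
  have hpz : (p : ℤ) = 12 * M + 1 := by rw [hpM]; push_cast; ring
  rcases Int.even_or_odd' A with ⟨a, ha | ha⟩ <;> rcases Int.even_or_odd' B with ⟨b, hb | hb⟩
  · exfalso
    have : (p : ℤ) = 4 * (a ^ 2 + 3 * b ^ 2) := by rw [h, ha, hb]; ring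
    omega
  · exfalso
    have : (p : ℤ) = 4 * (a ^ 2 + 3 * b ^ 2 + 3 * b) + 3 := by rw [h, ha, hb]; ring
    omega
  · exact ⟨⟨a, ha⟩, ⟨b, hb⟩⟩
  · exfalso
    have : (p : ℤ) = 4 * (a ^ 2 + a + 3 * b ^ 2 + 3 * b + 1) := by rw [h, ha, hb]; ring
    omega

theorem sym_A {p M : ℕ} (hp : p.Prime) (hpM : p = 12 * M + 1) {A B : ℤ}
    (h : (p : ℤ) = A ^ 2 + 3 * B ^ 2) (hA3 : A % 3 = 2) :
    (A % 4 = 1 → J(A | p) = -1) ∧ (A % 4 = 3 → J(A | p) = 1) := by
  have h4 : p % 4 = 1 := by omega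
  have hg := gcd_one hp h
  obtain ⟨⟨a, ha⟩, -⟩ := par hpM h
  have hodd : Odd A.natAbs := by
    rw [Nat.odd_iff]; omega
  have hJ : J((p : ℤ) | A.natAbs) = J(((3 : ℕ) : ℤ) | A.natAbs) := by
    have e : (p : ℤ) % (A.natAbs : ℤ) = (3 * B ^ 2) % (A.natAbs : ℤ) := by
      rw [h]
      have : (A.natAbs : ℤ) ∣ A ^ 2 := by
        rw [Int.natAbs_dvd]
        exact dvd_pow_self A (by norm_num)
      obtain ⟨c, hc⟩ := this
      rw [hc, add_comm]
      exact Int.add_mul_emod_self_left _ _ _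
    have hg0 : Int.gcd B (A.natAbs : ℤ) = 1 := by
      rw [Int.gcd_comm] at hg
      show Nat.gcd B.natAbs ((A.natAbs : ℤ).natAbs) = 1
      rw [Int.natAbs_natCast]
      exact hg
    rw [jacobiSym.mod_left' e, jacobiSym.mul_left, jacobiSym.sq_one' hg0, mul_one]
    rfl
  have h1 : J(A | p) = J(((3 : ℕ) : ℤ) | A.natAbs) := by
    rw [natAbs_sym h4, jacobiSym.quadratic_reciprocity_one_mod_four' hodd h4, hJ]
  have hm3 : ∀ k : ℤ, k % 3 = 2 → J(k | 3) = -1 := by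
    intro k hk
    have : k % ((3 : ℕ) : ℤ) = 2 % ((3 : ℕ) : ℤ) := by
      rw [show ((3 : ℕ) : ℤ) = 3 by norm_num, hk]; rfl
    rw [jacobiSym.mod_left' this]
    norm_num
  have hm1 : ∀ k : ℤ, k % 3 = 1 → J(k | 3) = 1 := by
    intro k hk
    have : k % ((3 : ℕ) : ℤ) = 1 % ((3 : ℕ) : ℤ) := by
      rw [show ((3 : ℕ) : ℤ) = 3 by norm_num, hk]; rfl
    rw [jacobiSym.mod_left' this]
    norm_num
  have r1 : A.natAbs % 4 = 1 → J(((3 : ℕ) : ℤ) | A.natAbs) = J((A.natAbs : ℤ) | 3) := fun hh =>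
    (jacobiSym.quadratic_reciprocity_one_mod_four hh (by decide)).symm
  have r3 : A.natAbs % 4 = 3 → J(((3 : ℕ) : ℤ) | A.natAbs) = -J((A.natAbs : ℤ) | 3) := fun hh =>
    jacobiSym.quadratic_reciprocity_three_mod_four (by norm_num) hh
  rw [h1]
  rcases Int.natAbs_eq A with hs | hs
  · constructor
    · intro hA
      rw [r1 (by omega), hm3 _ (by omega)]
    · intro hA
      rw [r3 (by omega), hm3 _ (by omega), neg_neg]
  · constructor
    · intro hA
      rw [r3 (by omega), hm1 _ (by omega)]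
    · intro hA
      rw [r1 (by omega), hm1 _ (by omega)]

theorem sym_B {p M : ℕ} (hp : p.Prime) (hpM : p = 12 * M + 1) {A B : ℤ}
    (h : (p : ℤ) = A ^ 2 + 3 * B ^ 2) (hA3 : A % 3 = 2) : J(B | p) = (-1) ^ (3 * M) := by
  have h4 : p % 4 = 1 := by omega
  have hoddp : Odd p := by rw [Nat.odd_iff]; omega
  have hg := gcd_one hp h
  obtain ⟨⟨a, ha⟩, ⟨b, hb⟩⟩ := par hpM h
  have hB0 : B.natAbs ≠ 0 := by
    intro h0
    rw [Int.natAbs_eq_zero] at h0
    rw [h0, Int.gcd_zero_right] at hg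
    have : A ^ 2 = 1 := by
      rw [← Int.natAbs_sq, hg]; norm_num
    have h1 : (p : ℤ) = 1 := by rw [h, h0, this]; norm_num
    have h2 : p = 1 := by exact_mod_cast h1
    exact hp.one_lt.ne' h2
  obtain ⟨e, b0, ho, hBe⟩ := Nat.exists_eq_two_pow_mul_odd hB0
  have hdvd : (b0 : ℤ) ∣ B := by
    rw [← Int.dvd_natAbs, hBe]
    push_cast
    exact Dvd.intro_left _ rfl
  have hg0 : Int.gcd A b0 = 1 := by
    have : Int.gcd A b0 ∣ Int.gcd A B := by
      apply Int.dvd_gcd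
      · exact Int.gcd_dvd_left A b0
      · exact (Int.gcd_dvd_right A b0).trans hdvd
    rw [hg] at this
    exact Nat.dvd_one.mp this
  have hJ : J((p : ℤ) | b0) = 1 := by
    have e : (p : ℤ) % (b0 : ℤ) = (A ^ 2) % (b0 : ℤ) := by
      rw [h]
      obtain ⟨c, hc⟩ := (hdvd.trans (dvd_pow_self B (show 2 ≠ 0 by norm_num))).mul_left 3
      rw [hc]
      exact Int.add_mul_emod_self_left _ _ _
    rw [jacobiSym.mod_left' e, jacobiSym.sq_one' hg0]
  have hs : J((b0 : ℤ) | p) = 1 := by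
    rw [jacobiSym.quadratic_reciprocity_one_mod_four' ho h4, hJ]
  have hmul : J(B | p) = J(2 | p) ^ e := by
    rw [natAbs_sym h4, hBe]
    push_cast
    rw [jacobiSym.mul_left, jacobiSym.pow_left, hs, mul_one]
  have hpz : (p : ℤ) = 12 * M + 1 := by rw [hpM]; push_cast; ring
  have h5 : (p : ℤ) = 4 * (a * (a + 1)) + 1 + 12 * b ^ 2 := by rw [h, ha, hb]; ring
  obtain ⟨w, hw⟩ := Int.even_mul_succ_self a
  rw [hw] at h5
  rw [hmul, jacobiSym.at_two hoddp, ZMod.χ₈_nat_eq_if_mod_eight]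
  rcases Nat.even_or_odd M with hM | hM
  · obtain ⟨c, hc⟩ := hM
    have h8 : p % 8 = 1 := by omega
    rw [if_neg (by omega), if_pos (by omega), one_pow, hc]
    rw [show 3 * (c + c) = 2 * (3 * c) by ring, pow_mul]
    norm_num
  · obtain ⟨c, hc⟩ := hM
    have h8 : p % 8 = 5 := by omega
    have h7 : b ^ 2 % 2 = 1 := by omega
    have he : e = 1 := by
      have h8' : ¬ (4 : ℤ) ∣ B := by
        rintro ⟨t, ht⟩
        have : b = 2 * t := by omega
        rw [this] at h7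
        have : (2 * t) ^ 2 = 2 * (2 * t ^ 2) := by ring
        omega
      have h9 : ¬ 4 ∣ B.natAbs := by
        intro h10
        apply h8'
        have : ((4 : ℕ) : ℤ) ∣ B := Int.natCast_dvd.mpr h10
        exact_mod_cast this
      have h10 : 2 ∣ B.natAbs := by
        apply Int.natCast_dvd.mp
        exact ⟨b, by rw [hb]; norm_num⟩
      rcases Nat.lt_or_ge e 2 with he2 | he2
      · rcases Nat.eq_zero_or_pos e with he0 | he0
        · exfalso
          rw [hBe, he0, pow_zero, one_mul] at h10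
          have := Nat.odd_iff.mp ho
          omega
        · omega
      · exfalso
        apply h9
        rw [hBe]
        exact (pow_dvd_pow 2 he2).mul_right b0
    rw [if_neg (by omega), if_neg (by omega), he, hc]
    have e3 : ((-1 : ℤ)) ^ (3 * (2 * c + 1)) = -1 := Odd.neg_one_pow ⟨3 * c + 1, by ring⟩
    rw [e3]
    norm_num

end PS

open PS NumberTheorySymbols in
theorem thS : StmtS := by
  intro p M hp hpM A B h hA3
  haveI : Fact p.Prime := ⟨hp⟩
  have hA := sym_A hp hpM h hA3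
  have hB := sym_B hp hpM h hA3
  have hp2 : p / 2 = 6 * M := by omega
  have eA : ((J(A | p) : ℤ) : ZMod p) = (A : ZMod p) ^ (6 * M) := by
    rw [← jacobiSym.legendreSym.to_jacobiSym, legendreSym.eq_pow, hp2]
  have eB : ((J(B | p) : ℤ) : ZMod p) = (B : ZMod p) ^ (6 * M) := by
    rw [← jacobiSym.legendreSym.to_jacobiSym, legendreSym.eq_pow, hp2]
  have hz : (A : ZMod p) ^ 2 = -3 * (B : ZMod p) ^ 2 := by
    have h1 : (((p : ℕ) : ℤ) : ZMod p) = ((A ^ 2 + 3 * B ^ 2 : ℤ) : ZMod p) := by rw [h]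
    push_cast at h1
    rw [ZMod.natCast_self] at h1
    linear_combination -h1
  have key : (27 : ZMod p) ^ M = ((J(A | p) : ℤ) : ZMod p) := by
    rw [eA, show 6 * M = 2 * (3 * M) by ring, pow_mul, hz, mul_pow, ← pow_mul,
      show 2 * (3 * M) = 6 * M by ring, ← eB, hB]
    push_cast
    rw [neg_pow, show (3 : ZMod p) ^ (3 * M) = 27 ^ M by rw [pow_mul]; norm_num]
    have e1 : ((-1 : ZMod p) ^ (3 * M)) * ((-1) ^ (3 * M)) = 1 := by rw [← mul_pow]; norm_num
    linear_combination (-(27 : ZMod p) ^ M) * e1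
  constructor
  · intro h4
    rw [hA.1 h4] at key
    rw [← ZMod.intCast_zmod_eq_zero_iff_dvd]
    push_cast
    rw [key]; push_cast; ring
  · intro h4
    rw [hA.2 h4] at key
    rw [← ZMod.intCast_zmod_eq_zero_iff_dvd]
    push_cast
    rw [key]; push_cast; ring

end Pool.Agent.R488.Th
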