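import Mathlib
import Pool.Agent.R488.Th.Defs
import Pool.Agent.R488.Sq.W
import Pool.Agent.R488.Sq.B

set_option autoImplicit false

/-!
TH-V: a product modulo `p^2`.
-/

namespace Pool.Agent.R488.Th

open Finset Pool.Agent.R439.PL Pool.Agent.R439.PL.S4 Pool.Agent.R488.Tri Pool.Agent.R488.Cub
  Pool.Agent.R488.Nin Pool.Agent.R488.Sq

variable {p j : ℕ} [hp : Fact p.Prime]

omit hp in
theorem sumH (m : ℕ) : ∑ i ∈ range m, (1 + (i : ℚ))⁻¹ = H m := by
  have h := H_sub m m le_rfl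
  have h0 : H 0 = 0 := by simp [H]
  rw [Nat.sub_self, h0, sub_zero] at h
  rw [← h, ← sum_range_reflect]
  refine sum_congr rfl fun i hi => ?_
  have hi' := mem_range.1 hi
  congr 1
  rw [Nat.sub_sub, Nat.cast_sub (show 1 + i ≤ m by omega)]
  push_cast; ring

theorem H4 (hpj : p = 6 * j + 1) : I p 1 (H (4 * j) - H (2 * j)) := by
  have hpq : (p : ℚ) = 6 * j + 1 := by exact_mod_cast hpj
  have h6 := Pool.Agent.R488.Sq.Hp1 hpj
  have h1 := H_sub (6 * j) (2 * j) (by omega)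
  rw [show 6 * j - 2 * j = 4 * j by omega] at h1
  have h2 : ∀ n ≤ 2 * j, I p 1 (∑ i ∈ range n, ((((6 * j : ℕ) : ℚ) - i)⁻¹ + (1 + (i : ℚ))⁻¹)) := by
    intro n
    induction n with
    | zero => intro _; exact ⟨0, zero_mem _, by simp⟩
    | succ n ih =>
      intro hn
      rw [sum_range_succ]
      refine (ih (by omega)).add ?_
      have u1 := U_nat (p := p) (k := 6 * j - n) (by omega) (by omega)
      rw [Nat.cast_sub (by omega)] at u1
      have u2 := U_nat (p := p) (k := 1 + n) (by omega) (by omega)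
      push_cast at u1 u2
      have e : (((6 * j : ℕ) : ℚ) - n)⁻¹ + (1 + (n : ℚ))⁻¹ = p * (((6 * (j : ℚ)) - n)⁻¹ * (1 + (n : ℚ))⁻¹) := by
        have a1 := u1.1
        have a2 := u2.1
        rw [hpq]
        push_cast
        field_simp
        ring
      rw [e]
      exact (I_p (p := p)).mulR (mul_mem u1.2.2 u2.2.2)
  have h3 := h2 (2 * j) le_rfl
  rw [sum_add_distrib, h1, sumH] at h3
  have e : H (4 * j) - H (2 * j) = H (6 * j) - (H (6 * j) - H (4 * j) + H (2 * j)) := by ring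
  rw [e]
  exact h6.sub h3

theorem thV : StmtV := by
  intro p j hp hpj a b C4' hC4' ha hb
  obtain ⟨a', b', C4, C3, C2, hC4, hC3, hC2, ha', hb', Ia, Ib, uC4, mC3, mC2, E3, E2, E1, e1, e6⟩ :=
    facts harm hpj
  rw [← ha] at ha'
  rw [← hb] at hb'
  rw [← hC4] at hC4'
  rw [hC4']
  have ha2 : a = a' := ha'.symm
  have hb2 : b = b' := hb'.symm
  clear ha' hb'
  subst ha2 hb2
  have hpq : (p : ℚ) = 6 * j + 1 := by exact_mod_cast hpj
  have hj := j_pos hpj
  have u2 := U2 hpj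
  have u3 := U3 hpj
  have u4 := U4 hpj
  have m12 : (1 / 2 : ℚ) ∈ Zp p := by rw [one_div]; exact u2.2.2
  have m13 : (1 / 3 : ℚ) ∈ Zp p := by rw [one_div]; exact u3.2.2
  have m23 : (2 / 3 : ℚ) ∈ Zp p := by rw [div_eq_mul_inv]; exact mul_mem u2.2.1 u3.2.2
  have m34 : (3 / 4 : ℚ) ∈ Zp p := by rw [div_eq_mul_inv]; exact mul_mem u3.2.1 u4.2.2
  have hd2 : I p 1 ((p : ℚ) / 2) := by rw [div_eq_mul_inv]; exact (I_p (p := p)).mulR u2.2.2
  have hd23 : I p 1 (2 * (p : ℚ) / 3) := by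
    have : 2 * (p : ℚ) / 3 = p * (2 / 3) := by ring
    rw [this]; exact (I_p (p := p)).mulR m23
  have hH0 : H 0 = 0 := by simp [H]
  have uf3 := U_fac (p := p) (k := 3 * j) (by omega)
  have m1 := neg_mem' (p := p) j
  have E4 : EQ p 2 (p * H (4 * j)) (-3 * b) := by
    have h := (I_p (p := p)).mul (H4 hpj)
    have m4 : (p : ℚ) * H (4 * j) ∈ Zp p := mul_mem p_mem (H_mem (by omega))
    refine EQ.trans ⟨m4, E2.1, ?_⟩ E2
    have e : (p : ℚ) * H (4 * j) - p * H (2 * j) = p * (H (4 * j) - H (2 * j)) := by ring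
    rw [e]; exact h
  obtain ⟨m, hm⟩ : ∃ m, 3 * j = m + 1 := ⟨3 * j - 1, by omega⟩
  have P1 : (∏ i ∈ range (3 * j), (1 / 2 + i : ℚ)) = 1 / 2 * ∏ i ∈ range (3 * j - 1), (3 / 2 + i : ℚ) := by
    rw [hm, prod_range_succ', Nat.add_sub_cancel]
    have : ∏ i ∈ range m, (1 / 2 + ((i + 1 : ℕ) : ℚ)) = ∏ i ∈ range m, (3 / 2 + i : ℚ) :=
      prod_congr rfl fun i _ => by push_cast; ring
    rw [this]; push_cast; ring
  have P2 : (∏ i ∈ range (3 * j), (2 / 3 + i : ℚ)) = 2 / 3 * ∏ i ∈ range (3 * j - 1), (5 / 3 + i : ℚ) := by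
    rw [hm, prod_range_succ', Nat.add_sub_cancel]
    have : ∏ i ∈ range m, (2 / 3 + ((i + 1 : ℕ) : ℚ)) = ∏ i ∈ range m, (5 / 3 + i : ℚ) :=
      prod_congr rfl fun i _ => by push_cast; ring
    rw [this]; push_cast; ring
  have t1 : EQ p 2 (∏ i ∈ range (3 * j), (1 / 2 + i : ℚ)) ((-1) ^ j * ((3 * j).factorial * (1 + a))) := by
    have t := prodH (p := p) (a := 3 * j) (b := 3 * j) (le_refl _) (by omega) hd2
    rw [prod_choose _ _ (le_refl _), Nat.choose_self, Nat.sub_self, hH0, sub_zero, Nat.cast_one, one_mul] at t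
    have e : ∏ i ∈ range (3 * j), (1 / 2 + i : ℚ) = (-1) ^ j *
        ∏ i ∈ range (3 * j), (((3 * j : ℕ) : ℚ) - i - p / 2) := by
      have : ∏ i ∈ range (3 * j), (1 / 2 + i : ℚ) = ∏ i ∈ range (3 * j), (-1 * (((3 * j : ℕ) : ℚ) - i - p / 2)) := by
        refine prod_congr rfl fun i _ => ?_
        rw [hpq]; push_cast; ring
      have e0 : (-1 : ℚ) ^ (3 * j) = (-1) ^ j := by rw [pow_mul]; norm_num
      rw [this, prod_mul_distrib, prod_const, card_range, e0]
    rw [e]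
    refine (EQ.refl m1).mul (t.trans ((EQ.refl uf3.2.1).mul ?_))
    have h' := EQ_lin (neg_mem m12) E3
    have x1 : 1 + -(1 / 2) * (p * H (3 * j)) = 1 - p / 2 * H (3 * j) := by ring
    have x2 : 1 + -(1 / 2) * (-2 * a) = 1 + a := by ring
    rwa [x1, x2] at h'
  obtain ⟨X, hX⟩ : ∃ X : ℚ, X = ((4 * j).choose (3 * j) : ℚ) := ⟨_, rfl⟩
  have mX : X ∈ Zp p := by rw [hX]; exact nat_mem _
  have t2 : EQ p 2 (∏ i ∈ range (3 * j), (2 / 3 + i : ℚ))
      ((-1) ^ j * (X * (3 * j).factorial * (1 + -(4 / 3) * a))) := by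
    have t := prodH (p := p) (a := 4 * j) (b := 3 * j) (by omega) (by omega) hd23
    rw [prod_choose _ _ (by omega), show 4 * j - 3 * j = j by omega, ← hX] at t
    have e : ∏ i ∈ range (3 * j), (2 / 3 + i : ℚ) = (-1) ^ j *
        ∏ i ∈ range (3 * j), (((4 * j : ℕ) : ℚ) - i - 2 * p / 3) := by
      have : ∏ i ∈ range (3 * j), (2 / 3 + i : ℚ) =
          ∏ i ∈ range (3 * j), (-1 * (((4 * j : ℕ) : ℚ) - i - 2 * p / 3)) := by
        refine prod_congr rfl fun i _ => ?_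
        rw [hpq]; push_cast; ring
      have e0 : (-1 : ℚ) ^ (3 * j) = (-1) ^ j := by rw [pow_mul]; norm_num
      rw [this, prod_mul_distrib, prod_const, card_range, e0]
    rw [e]
    refine (EQ.refl m1).mul (t.trans ((EQ.refl (mul_mem mX uf3.2.1)).mul ?_))
    have h' := EQ_lin (neg_mem m23) (E4.sub E1)
    have x1 : 1 + -(2 / 3) * (p * H (4 * j) - p * H j) = 1 - 2 * p / 3 * (H (4 * j) - H j) := by ring
    have x2 : 1 + -(2 / 3) * (-3 * b - (-2 * a - 3 * b)) = 1 + -(4 / 3) * a := by ring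
    rwa [x1, x2] at h'
  have um : U p ((-1 : ℚ) ^ j) := by
    rcases neg_one_pow_eq_or ℚ j with h | h <;> rw [h]
    · exact U.one
    · exact U_neg U.one
  have ut : U p ((-1) ^ j * ((3 * j).factorial * (1 + a)) : ℚ) := um.mul (uf3.mul (U_small Ia))
  have ut' := t1.symm.unit (by norm_num) ut
  have t3 := t2.div (by norm_num) t1 ut'
  have I43 : I p 1 (-(4 / 3) * a) := by
    have : -(4 / 3) * a = (-(4 * 3⁻¹)) * a := by ring
    rw [this]; exact Ia.mulL (neg_mem (mul_mem u4.2.1 u3.2.2))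
  have I73 : I p 1 (-(4 / 3) * a + -a) := I43.add Ia.neg
  have e3 : (-1) ^ j * (X * (3 * j).factorial * (1 + -(4 / 3) * a)) /
      ((-1) ^ j * ((3 * j).factorial * (1 + a)) : ℚ) = X * ((1 + -(4 / 3) * a) * (1 + a)⁻¹) := by
    have b1 := um.1
    have b2 := uf3.1
    have b3 := (U_small Ia).1
    generalize (-1 : ℚ) ^ j = y1 at b1
    generalize ((3 * j).factorial : ℚ) = y2 at b2
    generalize 1 + a = y3 at b3
    field_simp
  rw [e3] at t3
  have k1 := inv_small Ia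
  rw [sub_eq_add_neg] at k1
  have k2 := ((EQ.refl (k := 2) (U_small I43).2.1).mul k1).trans (mul_small I43 Ia.neg)
  have x1 : 1 + -(4 / 3) * a + -a = 1 + (-(4 / 3) * a + -a) := by ring
  rw [x1] at k2
  have t4 := t3.trans ((EQ.refl (k := 2) mX).mul k2)
  -- X in terms of C4
  have hXC : X * C3 = C4 * C2 := by
    have f1 := Nat.choose_mul_factorial_mul_factorial (show 3 * j ≤ 4 * j by omega)
    have f2 := Nat.choose_mul_factorial_mul_factorial (show j ≤ 3 * j by omega)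
    have f3 := Nat.choose_mul_factorial_mul_factorial (show 2 * j ≤ 4 * j by omega)
    have f4 := Nat.choose_mul_factorial_mul_factorial (show j ≤ 2 * j by omega)
    rw [show 4 * j - 3 * j = j by omega] at f1
    rw [show 3 * j - j = 2 * j by omega] at f2
    rw [show 4 * j - 2 * j = 2 * j by omega] at f3
    rw [show 2 * j - j = j by omega] at f4
    have g1 : X * (3 * j).factorial * j.factorial = ((4 * j).factorial : ℚ) := by rw [hX]; exact_mod_cast f1
    have g2 : C3 * j.factorial * (2 * j).factorial = ((3 * j).factorial : ℚ) := by rw [hC3]; exact_mod_cast f2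
    have g3 : C4 * (2 * j).factorial * (2 * j).factorial = ((4 * j).factorial : ℚ) := by
      rw [hC4]; exact_mod_cast f3
    have g4 : C2 * j.factorial * j.factorial = ((2 * j).factorial : ℚ) := by rw [hC2]; exact_mod_cast f4
    have n1 : (j.factorial : ℚ) ≠ 0 := by exact_mod_cast Nat.factorial_ne_zero _
    have n2 : ((2 * j).factorial : ℚ) ≠ 0 := by exact_mod_cast Nat.factorial_ne_zero _
    have n3 : (j.factorial : ℚ) * j.factorial * (2 * j).factorial ≠ 0 := mul_ne_zero (mul_ne_zero n1 n1) n2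
    apply mul_right_cancel₀ n3
    linear_combination (X * j.factorial) * g2 + g1 - g3 - C4 * (2 * j).factorial * g4
  have I32b : I p 1 (-(3 / 2) * b) := by
    have : -(3 / 2) * b = (-(3 * 2⁻¹)) * b := by ring
    rw [this]; exact Ib.mulL (neg_mem (mul_mem u3.2.1 u2.2.2))
  have m4j : (-4 : ℚ) ^ j ∈ Zp p := pow_mem (by exact_mod_cast int_mem (p := p) (-4)) _
  have c1 : EQ p 2 X ((-4) ^ j * (C4 * (1 + (a + -(3 / 2) * b)))) := by
    have g1 := (EQ.refl (k := 2) mX).mul e1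
    have x2 : X * (16 ^ j * C3 * (1 + -(3 / 2) * b)) = C4 * ((-4) ^ j * ((-4) ^ j * C2) * (1 + -(3 / 2) * b)) := by
      have h16 : (16 : ℚ) ^ j = (-4) ^ j * (-4) ^ j := by rw [← mul_pow]; norm_num
      rw [h16]
      linear_combination ((-4) ^ j * (-4) ^ j * (1 + -(3 / 2) * b)) * hXC
    rw [x2, mul_comm X C4] at g1
    have g2 := EQ_cancel uC4 mX (mul_mem (mul_mem m4j (mul_mem m4j mC2)) (U_small I32b).2.1) g1
    have g3 := ((EQ.refl (k := 2) m4j).mul e6.symm).mul (EQ.refl (k := 2) (U_small I32b).2.1)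
    have g4 := g2.trans g3
    have x3 : (-4) ^ j * (C4 * (1 + a)) * (1 + -(3 / 2) * b) =
        (-4) ^ j * (C4 * ((1 + a) * (1 + -(3 / 2) * b))) := by ring
    rw [x3] at g4
    have g5 := (EQ.refl (k := 2) m4j).mul ((EQ.refl (k := 2) uC4.2.1).mul (mul_small Ia I32b))
    have x4 : 1 + a + -(3 / 2) * b = 1 + (a + -(3 / 2) * b) := by ring
    rw [x4] at g5
    exact g4.trans g5
  have I5 : I p 1 (a + -(3 / 2) * b) := Ia.add I32b
  have t5 := t4.trans (c1.mul (EQ.refl (k := 2) (U_small I73).2.1))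
  have x5 : (-4) ^ j * (C4 * (1 + (a + -(3 / 2) * b))) * (1 + (-(4 / 3) * a + -a)) =
      (-4) ^ j * (C4 * ((1 + (a + -(3 / 2) * b)) * (1 + (-(4 / 3) * a + -a)))) := by ring
  rw [x5] at t5
  have t6 := t5.trans ((EQ.refl (k := 2) m4j).mul ((EQ.refl (k := 2) uC4.2.1).mul (mul_small I5 I73)))
  have x6 : 1 + (a + -(3 / 2) * b) + (-(4 / 3) * a + -a) = 1 + (-(4 / 3) * a + -(3 / 2) * b) := by ring
  rw [x6] at t6
  have t7 := (EQ.refl (k := 2) m34).mul t6
  have ex : ∏ i ∈ range (3 * j - 1), ((5 / 3 + i) / (3 / 2 + i) : ℚ) = 3 / 4 *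
      ((∏ i ∈ range (3 * j), (2 / 3 + i : ℚ)) / ∏ i ∈ range (3 * j), (1 / 2 + i : ℚ)) := by
    have n1 := ut'.1
    rw [P1] at n1
    have n2 : (∏ i ∈ range (3 * j - 1), (3 / 2 + i : ℚ)) ≠ 0 := fun h => n1 (by rw [h, mul_zero])
    rw [prod_div_distrib, P1, P2]
    generalize (∏ i ∈ range (3 * j - 1), (3 / 2 + i : ℚ)) = Y1 at n2
    generalize (∏ i ∈ range (3 * j - 1), (5 / 3 + i : ℚ)) = Y2
    field_simp
    ring
  rw [ex]
  exact t7

end Pool.Agent.R488.Th
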