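import Mathlib
import Pool.Agent.R488.Sq.W
import Pool.Agent.R488.Th.Defs

set_option autoImplicit false

/-!
TH-W: the product over a full period modulo `p^2`.
-/

namespace Pool.Agent.R488.Th

open Finset Pool.Agent.R439.PL Pool.Agent.R439.PL.S4 Pool.Agent.R488.Tri Pool.Agent.R488.Cub

variable {p j : ℕ} [hp : Fact p.Prime]

theorem W_aux (hpj : p = 6 * j + 1) {a b : ℚ} (Ia : I p 1 a) (Ib : I p 1 b)
    (H6 : I p 1 (H (6 * j))) (E1 : EQ p 2 (p * H j) (-2 * a - 3 * b)) :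
    EQ p 2 (∏ i ∈ range (6 * j + 1), ((3 / 2 + (3 * j + i)) / (4 / 3 + (3 * j + i)) : ℚ))
      (9 / 8 * (1 + (2 * a + 3 * b))) := by
  have hpq : (p : ℚ) = 6 * j + 1 := by exact_mod_cast hpj
  have hj := j_pos hpj
  have u2 := U2 hpj
  have u3 := U3 hpj
  have m12 : (1 / 2 : ℚ) ∈ Zp p := by rw [one_div]; exact u2.2.2
  have m13 : (1 / 3 : ℚ) ∈ Zp p := by rw [one_div]; exact u3.2.2
  have m43 : (4 / 3 : ℚ) ∈ Zp p := by
    have : (4 / 3 : ℚ) = 2 * 2 * 3⁻¹ := by norm_num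
    rw [this]; exact mul_mem (mul_mem u2.2.1 u2.2.1) u3.2.2
  have m98 : (9 / 8 : ℚ) ∈ Zp p := by
    have : (9 / 8 : ℚ) = 3 * 3 * (2⁻¹ * 2⁻¹ * 2⁻¹) := by norm_num
    rw [this]; exact mul_mem (mul_mem u3.2.1 u3.2.1) (mul_mem (mul_mem u2.2.2 u2.2.2) u2.2.2)
  have hp0 : (p : ℚ) ≠ 0 := p_ne
  have N : (∏ i ∈ range (6 * j + 1), (3 / 2 + (3 * j + i) : ℚ)) =
      (∏ i ∈ range (6 * j), (1 + i + p / 2 : ℚ)) * (3 * p / 2) := by
    rw [prod_range_succ]
    congr 1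
    · refine prod_congr rfl fun i _ => ?_
      rw [hpq]; ring
    · rw [hpq]; push_cast; ring
  have D : (∏ i ∈ range (6 * j + 1), (4 / 3 + (3 * j + i) : ℚ)) =
      (∏ i ∈ range (5 * j), (j + 1 + i + p / 3 : ℚ)) * (4 * p / 3) *
        ∏ i ∈ range j, (1 + i + 4 * p / 3 : ℚ) := by
    rw [show 6 * j + 1 = (5 * j + 1) + j by omega, prod_range_add, prod_range_succ]
    congr 1
    · congr 1
      · refine prod_congr rfl fun i _ => ?_
        rw [hpq]; ring
      · rw [hpq]; push_cast; ring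
    · refine prod_congr rfl fun i _ => ?_
      rw [hpq]; push_cast; ring
  have uf6 := U_fac (p := p) (k := 6 * j) (by omega)
  have uf5 := U_fac (p := p) (k := 5 * j) (by omega)
  have uf1 := U_fac (p := p) (k := j) (by omega)
  have hd2 : I p 1 ((p : ℚ) / 2) := by rw [div_eq_mul_inv]; exact (I_p (p := p)).mulR u2.2.2
  have hd3 : I p 1 ((p : ℚ) / 3) := by rw [div_eq_mul_inv]; exact (I_p (p := p)).mulR u3.2.2
  have hd43 : I p 1 (4 * (p : ℚ) / 3) := by
    have : 4 * (p : ℚ) / 3 = p * (4 / 3) := by ring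
    rw [this]; exact (I_p (p := p)).mulR m43
  have hH0 : H 0 = 0 := by simp [H]
  have E6 : EQ p 2 (p * H (6 * j)) 0 := by
    have h := (I_p (p := p)).mul H6
    exact ⟨h.mem, zero_mem _, by rw [sub_zero]; exact h⟩
  -- t1
  have t1 : EQ p 2 (∏ i ∈ range (6 * j), (1 + i + p / 2 : ℚ)) ((6 * j).factorial) := by
    have t := prodH (p := p) (a := 6 * j) (b := 6 * j) (le_refl _) (by omega) hd2.neg
    rw [prod_choose _ _ (le_refl _), Nat.choose_self, Nat.sub_self, hH0, sub_zero, Nat.cast_one, one_mul] at t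
    have e : ∏ i ∈ range (6 * j), (1 + i + p / 2 : ℚ) =
        ∏ i ∈ range (6 * j), (((6 * j : ℕ) : ℚ) - i - -(p / 2)) := by
      rw [← prod_range_reflect (fun i => (((6 * j : ℕ) : ℚ) - i - -(p / 2)))]
      refine prod_congr rfl fun i hi => ?_
      have hi' := mem_range.1 hi
      rw [Nat.sub_sub, Nat.cast_sub (show 1 + i ≤ 6 * j by omega)]
      push_cast; ring
    rw [e]
    refine t.trans ?_
    have h' := (EQ.refl (k := 2) uf6.2.1).mul (EQ_lin m12 E6)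
    have x1 : 1 + 1 / 2 * (p * H (6 * j)) = 1 - -(p / 2) * H (6 * j) := by ring
    have x2 : ((6 * j).factorial : ℚ) * (1 + 1 / 2 * 0) = (6 * j).factorial := by ring
    rwa [x1, x2] at h'
  -- t2
  have t2 : EQ p 2 (∏ i ∈ range (5 * j), (j + 1 + i + p / 3 : ℚ))
      ((((6 * j).choose (5 * j) : ℕ) : ℚ) * (5 * j).factorial * (1 + 1 / 3 * (2 * a + 3 * b))) := by
    have t := prodH (p := p) (a := 6 * j) (b := 5 * j) (by omega) (by omega) hd3.neg
    rw [prod_choose _ _ (by omega), show 6 * j - 5 * j = j by omega] at t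
    have e : ∏ i ∈ range (5 * j), (j + 1 + i + p / 3 : ℚ) =
        ∏ i ∈ range (5 * j), (((6 * j : ℕ) : ℚ) - i - -(p / 3)) := by
      rw [← prod_range_reflect (fun i => (((6 * j : ℕ) : ℚ) - i - -(p / 3)))]
      refine prod_congr rfl fun i hi => ?_
      have hi' := mem_range.1 hi
      rw [Nat.sub_sub, Nat.cast_sub (show 1 + i ≤ 5 * j by omega)]
      push_cast; ring
    rw [e]
    refine t.trans ?_
    have uc : U p ((((6 * j).choose (5 * j) : ℕ) : ℚ) * (5 * j).factorial) :=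
      (C_unit (by omega) (by omega)).mul uf5
    have h' := (EQ.refl (k := 2) uc.2.1).mul (EQ_lin m13 (E6.sub E1))
    have x1 : 1 + 1 / 3 * (p * H (6 * j) - p * H j) = 1 - -(p / 3) * (H (6 * j) - H j) := by ring
    have x2 : 1 + 1 / 3 * (0 - (-2 * a - 3 * b)) = 1 + 1 / 3 * (2 * a + 3 * b) := by ring
    rwa [x1, x2] at h'
  -- t3
  have t3 : EQ p 2 (∏ i ∈ range j, (1 + i + 4 * p / 3 : ℚ)) (j.factorial * (1 + -(4 / 3) * (2 * a + 3 * b))) := by
    have t := prodH (p := p) (a := j) (b := j) (le_refl _) (by omega) hd43.neg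
    rw [prod_choose _ _ (le_refl _), Nat.choose_self, Nat.sub_self, hH0, sub_zero, Nat.cast_one, one_mul] at t
    have e : ∏ i ∈ range j, (1 + i + 4 * p / 3 : ℚ) = ∏ i ∈ range j, ((j : ℚ) - i - -(4 * p / 3)) := by
      rw [← prod_range_reflect (fun i => ((j : ℚ) - i - -(4 * p / 3)))]
      refine prod_congr rfl fun i hi => ?_
      have hi' := mem_range.1 hi
      rw [Nat.sub_sub, Nat.cast_sub (show 1 + i ≤ j by omega)]
      push_cast; ring
    rw [e]
    refine t.trans ((EQ.refl uf1.2.1).mul ?_)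
    have h' := EQ_lin m43 E1
    have x1 : 1 + 4 / 3 * (p * H j) = 1 - -(4 * p / 3) * H j := by ring
    have x2 : 1 + 4 / 3 * (-2 * a - 3 * b) = 1 + -(4 / 3) * (2 * a + 3 * b) := by ring
    rwa [x1, x2] at h'
  have Iab : I p 1 (2 * a + 3 * b) := (Ia.mulL u2.2.1).add (Ib.mulL u3.2.1)
  have Is : I p 1 (1 / 3 * (2 * a + 3 * b)) := Iab.mulL m13
  have It : I p 1 (-(4 / 3) * (2 * a + 3 * b)) := Iab.mulL (neg_mem m43)
  have uc : U p ((((6 * j).choose (5 * j) : ℕ) : ℚ) * (5 * j).factorial) :=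
    (C_unit (by omega) (by omega)).mul uf5
  have ut : U p (((((6 * j).choose (5 * j) : ℕ) : ℚ) * (5 * j).factorial * (1 + 1 / 3 * (2 * a + 3 * b))) *
      (j.factorial * (1 + -(4 / 3) * (2 * a + 3 * b)))) :=
    (uc.mul (U_small Is)).mul (uf1.mul (U_small It))
  have t23 := t2.mul t3
  have ut' := t23.symm.unit (by norm_num) ut
  have t4 := (EQ.refl (k := 2) m98).mul (t1.div (by norm_num) t23 ut')
  have ex : ∏ i ∈ range (6 * j + 1), ((3 / 2 + (3 * j + i)) / (4 / 3 + (3 * j + i)) : ℚ) = 9 / 8 *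
      ((∏ i ∈ range (6 * j), (1 + i + p / 2 : ℚ)) / ((∏ i ∈ range (5 * j), (j + 1 + i + p / 3 : ℚ)) *
        ∏ i ∈ range j, (1 + i + 4 * p / 3 : ℚ))) := by
    have n1 : (∏ i ∈ range (5 * j), (j + 1 + i + p / 3 : ℚ)) ≠ 0 := fun h => ut'.1 (by rw [h, zero_mul])
    have n2 : (∏ i ∈ range j, (1 + i + 4 * p / 3 : ℚ)) ≠ 0 := fun h => ut'.1 (by rw [h, mul_zero])
    rw [prod_div_distrib, N, D]
    generalize (∏ i ∈ range (6 * j), (1 + i + p / 2 : ℚ)) = X1
    generalize (∏ i ∈ range (5 * j), (j + 1 + i + p / 3 : ℚ)) = X2 at n1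
    generalize (∏ i ∈ range j, (1 + i + 4 * p / 3 : ℚ)) = X3 at n2
    field_simp
    ring
  rw [ex]
  refine t4.trans ?_
  have hC : ((6 * j).factorial : ℚ) = (((6 * j).choose (5 * j) : ℕ) : ℚ) * (5 * j).factorial * j.factorial := by
    have h := Nat.choose_mul_factorial_mul_factorial (show 5 * j ≤ 6 * j by omega)
    rw [show 6 * j - 5 * j = j by omega] at h
    exact_mod_cast h.symm
  have e5 : ((6 * j).factorial : ℚ) / (((((6 * j).choose (5 * j) : ℕ) : ℚ) * (5 * j).factorial *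
      (1 + 1 / 3 * (2 * a + 3 * b))) * (j.factorial * (1 + -(4 / 3) * (2 * a + 3 * b)))) =
      (1 + 1 / 3 * (2 * a + 3 * b))⁻¹ * (1 + -(4 / 3) * (2 * a + 3 * b))⁻¹ := by
    have a1 := (U_small Is).1
    have a2 := (U_small It).1
    have a3 := uc.1
    have a4 := uf1.1
    rw [hC]
    generalize 1 + 1 / 3 * (2 * a + 3 * b) = y1 at a1
    generalize 1 + -(4 / 3) * (2 * a + 3 * b) = y2 at a2
    generalize (((6 * j).choose (5 * j) : ℕ) : ℚ) * (5 * j).factorial = y3 at a3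
    generalize (j.factorial : ℚ) = y4 at a4
    field_simp
  rw [e5]
  refine (EQ.refl (k := 2) m98).mul ?_
  have k1 := inv_small Is
  have k2 := inv_small It
  rw [sub_eq_add_neg] at k1 k2
  have k3 := (k1.mul k2).trans (mul_small Is.neg It.neg)
  have x : 1 + -(1 / 3 * (2 * a + 3 * b)) + -(-(4 / 3) * (2 * a + 3 * b)) = 1 + (2 * a + 3 * b) := by ring
  rwa [x] at k3

theorem thW' (p j : ℕ) [Fact p.Prime] (hpj : p = 6 * j + 1) (a b : ℚ)
    (ha : a = 64 ^ j - 1) (hb : b = (-27) ^ j - 1) :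
    EQ p 2 (∏ i ∈ range (6 * j + 1), ((3 / 2 + (3 * j + i)) / (4 / 3 + (3 * j + i)) : ℚ))
      (9 / 8 * (1 + (2 * a + 3 * b))) := by
  obtain ⟨a', b', C4, C3, C2, -, -, -, ha', hb', Ia, Ib, -, -, -, -, -, E1, -, -⟩ := facts harm hpj
  rw [ha', ← ha] at Ia
  rw [hb', ← hb] at Ib
  rw [ha', hb', ← ha, ← hb] at E1
  exact W_aux hpj Ia Ib (Pool.Agent.R488.Sq.Hp1 hpj) E1

theorem thW : StmtW := fun p j _ hpj a b ha hb => thW' p j hpj a b ha hb

end Pool.Agent.R488.Th
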